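import Pool.Agent.W2helper31.HS.W

/-!
# The `h*`-vector of a hypersimplex
-/

set_option autoImplicit false

namespace Pool.Agent.W2helper31.HS

open Finset

theorem count_eq (m n : ℕ) (y : ℤ) :
    (((univ : Finset (Fin n → Fin m)).filter (fun x => ∑ i, (((x i : ℕ)) : ℤ) = y)).card : ℤ) =
      W m n y := by
  induction n generalizing y with
  | zero =>
    rw [W_zero]
    by_cases h : y = 0
    · subst h
      simp
    · rw [if_neg h]
      simp only [univ_eq_empty, sum_empty, Nat.cast_eq_zero, card_eq_zero]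
      apply filter_eq_empty_iff.mpr
      intro x _ hx
      exact h hx.symm
  | succ n ih =>
    rw [W_succ, sum_range, card_filter]
    push_cast
    rw [← (Fin.consEquiv (fun _ : Fin (n + 1) => Fin m)).sum_comp, Fintype.sum_prod_type]
    refine sum_congr rfl fun a _ => ?_
    rw [← ih, card_filter]
    push_cast
    refine sum_congr rfl fun x _ => ?_
    have e : (∑ i, (((Fin.consEquiv (fun _ : Fin (n + 1) => Fin m)) (a, x) i : ℕ) : ℤ)) =
        (a : ℕ) + ∑ i, ((x i : ℕ) : ℤ) := by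
      rw [Fin.sum_univ_succ]
      rfl
    rw [e]
    by_cases h : ∑ i, ((x i : ℕ) : ℤ) = y - (a : ℕ)
    · rw [if_pos (by omega), if_pos h]
    · rw [if_neg (by omega), if_neg h]

/-- The coefficient of `y ^ x` in `(1 - y) ^ (-n)`. -/
def S : ℕ → ℤ → ℤ
  | 0, x => if x = 0 then 1 else 0
  | (n + 1), x => ∑ u ∈ range (x + 1).toNat, S n (x - u)

theorem S_zero (x : ℤ) : S 0 x = if x = 0 then 1 else 0 := rfl

theorem S_succ (n : ℕ) (x : ℤ) : S (n + 1) x = ∑ u ∈ range (x + 1).toNat, S n (x - u) := rfl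

theorem S_neg (n : ℕ) {x : ℤ} (hx : x < 0) : S n x = 0 := by
  rcases n with _ | n
  · rw [S_zero, if_neg (by omega)]
  · rw [S_succ, show (x + 1).toNat = 0 by omega]; simp

theorem S_step (n : ℕ) (x : ℤ) : S (n + 1) x - S (n + 1) (x - 1) = S n x := by
  by_cases hx : x < 0
  · rw [S_neg _ hx, S_neg _ (by omega : x - 1 < 0), S_neg _ hx]; ring
  · rw [S_succ, S_succ, show (x + 1).toNat = x.toNat + 1 by omega,
      show (x - 1 + 1).toNat = x.toNat by omega, sum_range_succ']
    have : ∀ u ∈ range x.toNat, S n (x - ((u + 1 : ℕ) : ℤ)) = S n (x - 1 - u) := by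
      intro u _
      congr 1
      push_cast
      ring
    rw [sum_congr rfl this]
    simp

theorem S_window (n m : ℕ) (z : ℤ) :
    ∑ t ∈ range m, S n (z - t) = S (n + 1) z - S (n + 1) (z - m) := by
  induction m with
  | zero => simp
  | succ m ih =>
    rw [sum_range_succ, ih]
    have := S_step n (z - m)
    rw [show z - (m : ℤ) - 1 = z - ((m + 1 : ℕ) : ℤ) by push_cast; ring] at this
    linarith

theorem pascal_sum (n : ℕ) (f : ℕ → ℤ) :
    ∑ j ∈ range (n + 2), (-1 : ℤ) ^ j * ((n + 1).choose j : ℤ) * f j =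
      ∑ j ∈ range (n + 1), (-1 : ℤ) ^ j * (n.choose j : ℤ) * (f j - f (j + 1)) := by
  have h1 : ∑ j ∈ range (n + 1), (-1 : ℤ) ^ j * (n.choose j : ℤ) * f j =
      ∑ j ∈ range (n + 1), (-1 : ℤ) ^ (j + 1) * (n.choose (j + 1) : ℤ) * f (j + 1) + f 0 := by
    have h2 : ∑ j ∈ range (n + 2), (-1 : ℤ) ^ j * (n.choose j : ℤ) * f j =
        ∑ j ∈ range (n + 1), (-1 : ℤ) ^ j * (n.choose j : ℤ) * f j := by
      rw [sum_range_succ, Nat.choose_eq_zero_of_lt (by omega : n < n + 1)]
      simp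
    rw [← h2, sum_range_succ']
    simp
  rw [sum_range_succ']
  simp only [mul_sub, sum_sub_distrib, h1, Nat.choose_succ_succ, Nat.choose_zero_right, pow_zero]
  push_cast
  rw [add_sub_right_comm, ← sum_sub_distrib]
  congr 1
  · refine sum_congr rfl fun j _ => ?_
    rw [pow_succ]
    ring
  · ring

theorem W_eq_S (m n : ℕ) (x : ℤ) :
    W m n x = ∑ j ∈ range (n + 1), (-1 : ℤ) ^ j * (n.choose j : ℤ) * S n (x - m * j) := by
  induction n generalizing x with
  | zero => simp [W_zero, S_zero]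
  | succ n ih =>
    rw [pascal_sum n (fun j => S (n + 1) (x - m * j)), W_succ,
      sum_congr rfl fun (t : ℕ) _ => ih (x - (t : ℤ)), sum_comm]
    refine sum_congr rfl fun j _ => ?_
    rw [← mul_sum]
    congr 1
    have := S_window n m (x - m * j)
    have e : ∀ t ∈ range m, S n (x - t - m * j) = S n (x - m * j - t) := by
      intro t _
      congr 1
      ring
    rw [sum_congr rfl e, this]
    congr 2
    push_cast
    ring

variable {n k : ℕ} {L : ℕ → ℕ} {h : ℕ → ℤ}

theorem L_eq (hL : ∀ t : ℕ, L t = ((univ : Finset (Fin n → Fin (t + 1))).filter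
      (fun x => ∑ i, (x i : ℕ) = k * t)).card) (t : ℕ) :
    (L t : ℤ) = W (t + 1) n (k * t) := by
  rw [hL, ← count_eq]
  congr 2
  ext x
  simp only [mem_filter, mem_univ, true_and]
  constructor
  · intro hx
    exact_mod_cast hx
  · intro hx
    exact_mod_cast hx

theorem L_eq_S (hk : 0 < k) (hkn : k < n)
    (hL : ∀ t : ℕ, L t = ((univ : Finset (Fin n → Fin (t + 1))).filter
      (fun x => ∑ i, (x i : ℕ) = k * t)).card) (t : ℕ) :
    (L t : ℤ) = ∑ i ∈ range k, (-1 : ℤ) ^ i * (n.choose i : ℤ) * S n (((k : ℤ) - i) * t - i) := by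
  rw [L_eq hL, W_eq_S]
  symm
  have e : ∀ i ∈ range k, (-1 : ℤ) ^ i * (n.choose i : ℤ) * S n (((k : ℤ) - i) * t - i) =
      (-1 : ℤ) ^ i * (n.choose i : ℤ) * S n ((k : ℤ) * t - ((t + 1 : ℕ) : ℤ) * i) := by
    intro i _
    congr 2
    push_cast
    ring
  rw [sum_congr rfl e]
  apply sum_subset
  · intro i hi
    rw [mem_range] at hi ⊢
    omega
  · intro i _ hi'
    rw [mem_range] at hi'
    rw [S_neg]
    · ring
    · have h1 : (k : ℤ) ≤ i := by omega
      have h2 : (0 : ℤ) ≤ t := by positivity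
      have h3 : (0 : ℤ) < k := by exact_mod_cast hk
      push_cast
      nlinarith

/-- The `h*`-vector of the hypersimplex `Δ_{k,n}`. -/
theorem h_eq (hk : 0 < k) (hkn : k < n)
    (hL : ∀ t : ℕ, L t = ((univ : Finset (Fin n → Fin (t + 1))).filter
      (fun x => ∑ i, (x i : ℕ) = k * t)).card)
    (hh : ∀ i : ℕ, h i = ∑ j ∈ range (i + 1), (-1 : ℤ) ^ j * (n.choose j : ℤ) * (L (i - j) : ℤ))
    (d : ℕ) :
    h d = ∑ i ∈ range k, (-1 : ℤ) ^ i * (n.choose i : ℤ) *
      W (k - i) n (((k : ℤ) - i) * d - i) := by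
  rw [hh]
  have e1 : ∀ j ∈ range (d + 1), (-1 : ℤ) ^ j * (n.choose j : ℤ) * (L (d - j) : ℤ) =
      ∑ i ∈ range k, (-1 : ℤ) ^ i * (n.choose i : ℤ) * ((-1 : ℤ) ^ j * (n.choose j : ℤ) *
        S n (((k : ℤ) - i) * (d - j) - i)) := by
    intro j hj
    rw [mem_range] at hj
    rw [L_eq_S hk hkn hL, mul_sum]
    refine sum_congr rfl fun i _ => ?_
    rw [show ((d - j : ℕ) : ℤ) = d - j by omega]
    ring
  rw [sum_congr rfl e1, sum_comm]
  refine sum_congr rfl fun i hi => ?_
  rw [mem_range] at hi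
  rw [← mul_sum]
  congr 1
  rw [W_eq_S]
  have e2 : ∀ j : ℕ, S n (((k : ℤ) - i) * d - i - ((k - i : ℕ) : ℤ) * j) =
      S n (((k : ℤ) - i) * (d - j) - i) := by
    intro j
    congr 1
    rw [show ((k - i : ℕ) : ℤ) = k - i by omega]
    ring
  simp only [e2]
  have e3 : ∑ j ∈ range (d + 1), (-1 : ℤ) ^ j * (n.choose j : ℤ) *
      S n (((k : ℤ) - i) * (d - j) - i) = ∑ j ∈ range (d + n + 1), (-1 : ℤ) ^ j *
      (n.choose j : ℤ) * S n (((k : ℤ) - i) * (d - j) - i) := by
    apply sum_subset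
    · intro j hj
      rw [mem_range] at hj ⊢
      omega
    · intro j _ hj'
      rw [mem_range] at hj'
      rw [S_neg]
      · ring
      · have h1 : (d : ℤ) + 1 ≤ j := by omega
        have h2 : (1 : ℤ) ≤ (k : ℤ) - i := by omega
        have h3 : (0 : ℤ) ≤ i := by positivity
        nlinarith
  have e4 : ∑ j ∈ range (n + 1), (-1 : ℤ) ^ j * (n.choose j : ℤ) *
      S n (((k : ℤ) - i) * (d - j) - i) = ∑ j ∈ range (d + n + 1), (-1 : ℤ) ^ j *
      (n.choose j : ℤ) * S n (((k : ℤ) - i) * (d - j) - i) := by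
    apply sum_subset
    · intro j hj
      rw [mem_range] at hj ⊢
      omega
    · intro j _ hj'
      rw [mem_range] at hj'
      rw [Nat.choose_eq_zero_of_lt (by omega : n < j)]
      simp
  rw [e3, e4]

theorem W_two (n x : ℕ) : W 2 n x = n.choose x := by
  induction n generalizing x with
  | zero =>
    rw [W_zero]
    rcases x with _ | x
    · simp
    · rw [if_neg (by push_cast; omega)]; simp
  | succ n ih =>
    rw [W_succ, sum_range_succ, sum_range_succ, sum_range_zero]
    rcases x with _ | x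
    · have : W 2 n (((0 : ℕ) : ℤ) - ((1 : ℕ) : ℤ)) = 0 := W_neg _ _ (by norm_num)
      rw [this]
      simpa using ih 0
    · have h1 := ih (x + 1)
      have h2 := ih x
      rw [show ((x + 1 : ℕ) : ℤ) - ((0 : ℕ) : ℤ) = ((x + 1 : ℕ) : ℤ) by simp,
        show ((x + 1 : ℕ) : ℤ) - ((1 : ℕ) : ℤ) = (x : ℤ) by push_cast; ring, h1, h2,
        Nat.choose_succ_succ]
      push_cast
      ring

theorem W_one (n : ℕ) (x : ℤ) : W 1 n x = if x = 0 then 1 else 0 := by
  induction n with
  | zero => rfl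
  | succ n ih =>
    rw [W_succ]
    simpa using ih

end Pool.Agent.W2helper31.HS
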