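import Pool.Agent.W2helper31.HS.Mono

/-!
# The error terms are small
-/

set_option autoImplicit false

namespace Pool.Agent.W2helper31.HS

open Finset

/-- Comparison with the place `j`, for the ratio `r` at `j`. -/
theorem tilt (m E : ℕ) {j : ℤ} {r : ℝ} (hr : 0 < r)
    (hrj : (W m E (j - 1) : ℝ) = r * W m E j) (hpos : (0 : ℝ) < W m E j) (l : ℤ) :
    (W m E l : ℝ) * r ^ l ≤ W m E j * r ^ j := by
  by_cases h : j ≤ l
  · obtain ⟨u, hu⟩ := Int.eq_ofNat_of_zero_le (show 0 ≤ l - j by omega)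
    have key : ∀ u : ℕ, (W m E (j + u) : ℝ) * r ^ u ≤ W m E j := by
      intro u
      induction u with
      | zero => simp
      | succ u ih =>
        have h1 := W_lcs m E 1 (j - 1) (j + u + 1) (by push_cast; omega)
        rw [show j - 1 + ((1 : ℕ) : ℤ) = j by push_cast; ring,
          show j + (u : ℤ) + 1 - ((1 : ℕ) : ℤ) = j + u by push_cast; ring] at h1
        have h2 : (W m E (j - 1) : ℝ) * W m E (j + u + 1) ≤ W m E j * W m E (j + u) := by
          exact_mod_cast h1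
        rw [hrj] at h2
        have h3 : r * (W m E (j + u + 1) : ℝ) ≤ W m E (j + u) := by
          have : (W m E j : ℝ) * (r * W m E (j + u + 1)) ≤ W m E j * W m E (j + u) := by
            linarith
          exact le_of_mul_le_mul_left this hpos
        rw [show j + ((u + 1 : ℕ) : ℤ) = j + u + 1 by push_cast; ring, pow_succ]
        have h4 : 0 < r ^ u := by positivity
        calc (W m E (j + u + 1) : ℝ) * (r ^ u * r) = (r * W m E (j + u + 1)) * r ^ u := by ring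
          _ ≤ W m E (j + u) * r ^ u := mul_le_mul_of_nonneg_right h3 h4.le
          _ ≤ W m E j := ih
    have h5 := key u
    rw [show l = j + u by omega, zpow_add₀ hr.ne', zpow_natCast]
    have h6 : 0 < r ^ j := by positivity
    calc (W m E (j + u) : ℝ) * (r ^ j * r ^ u) = (W m E (j + u) * r ^ u) * r ^ j := by ring
      _ ≤ W m E j * r ^ j := mul_le_mul_of_nonneg_right h5 h6.le
  · obtain ⟨u, hu⟩ := Int.eq_ofNat_of_zero_le (show 0 ≤ j - l by omega)
    have key : ∀ u : ℕ, (W m E (j - u) : ℝ) ≤ W m E j * r ^ u := by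
      intro u
      induction u with
      | zero => simp
      | succ u ih =>
        have h1 := W_lcs m E 1 (j - u - 1) j (by push_cast; omega)
        rw [show j - (u : ℤ) - 1 + ((1 : ℕ) : ℤ) = j - u by push_cast; ring,
          show j - ((1 : ℕ) : ℤ) = j - 1 by push_cast; ring] at h1
        have h2 : (W m E (j - u - 1) : ℝ) * W m E j ≤ W m E (j - u) * W m E (j - 1) := by
          exact_mod_cast h1
        rw [hrj] at h2
        have h3 : (W m E (j - u - 1) : ℝ) ≤ W m E (j - u) * r := by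
          have : (W m E (j - u - 1) : ℝ) * W m E j ≤ (W m E (j - u) * r) * W m E j := by
            linarith
          exact le_of_mul_le_mul_right this hpos
        rw [show j - ((u + 1 : ℕ) : ℤ) = j - u - 1 by push_cast; ring, pow_succ]
        calc (W m E (j - u - 1) : ℝ) ≤ W m E (j - u) * r := h3
          _ ≤ (W m E j * r ^ u) * r := mul_le_mul_of_nonneg_right ih hr.le
          _ = _ := by ring
    have h5 := key u
    rw [show l = j - u by omega, zpow_sub₀ hr.ne', zpow_natCast]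
    have h6 : 0 < r ^ j / r ^ u := by positivity
    calc (W m E (j - u) : ℝ) * (r ^ j / r ^ u) ≤ (W m E j * r ^ u) * (r ^ j / r ^ u) :=
          mul_le_mul_of_nonneg_right h5 h6.le
      _ = W m E j * r ^ j := by
          have : r ^ u ≠ 0 := by positivity
          field_simp

theorem gen_le {m : ℕ} (hm : 1 ≤ m) (E : ℕ) {j : ℤ} {r : ℝ} (hr : 0 < r)
    (hrj : (W m E (j - 1) : ℝ) = r * W m E j) (hpos : (0 : ℝ) < W m E j) :
    (∑ t ∈ range m, r ^ t) ^ E ≤ ((E * (m - 1) : ℕ) + 1 : ℝ) * (W m E j * r ^ j) := by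
  rw [← W_gen hm E hr.ne']
  have := sum_le_card_nsmul (Icc (0 : ℤ) ((E * (m - 1) : ℕ) : ℤ))
    (fun l => (W m E l : ℝ) * r ^ l) (W m E j * r ^ j) (fun l _ => tilt m E hr hrj hpos l)
  refine this.trans (le_of_eq ?_)
  rw [nsmul_eq_mul, Int.card_Icc]
  congr 1
  have e : ((E * (m - 1) : ℕ) + 1 - 0 : ℤ).toNat = E * (m - 1) + 1 := by omega
  rw [e]
  push_cast
  ring

theorem q_le {k i : ℕ} (hk : 1 ≤ k) (hik : i ≤ k) {r : ℝ} (hr : 0 < r) (hr1 : r ≤ 1) :
    (∑ t ∈ range (k - i), r ^ t) ≤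
      (∑ t ∈ range k, r ^ t) * Real.exp (-(i * r ^ (k - 1) / k)) := by
  have hq : (∑ t ∈ range k, r ^ t) ≤ k := by
    have := sum_le_sum (s := range k) (f := fun t => r ^ t) (g := fun _ => (1 : ℝ))
      fun t _ => pow_le_one₀ hr.le hr1
    simpa using this
  have hq0 : 0 ≤ ∑ t ∈ range k, r ^ t := sum_nonneg fun t _ => by positivity
  have h1 : (i : ℝ) * r ^ (k - 1) ≤ ∑ t ∈ range i, r ^ (k - i + t) := by
    have : ∑ t ∈ range i, r ^ (k - 1) ≤ ∑ t ∈ range i, r ^ (k - i + t) := by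
      refine sum_le_sum fun t ht => ?_
      have ht' : t < i := mem_range.mp ht
      exact pow_le_pow_of_le_one hr.le hr1 (by omega)
    simpa using this
  have h2 : ∑ t ∈ range k, r ^ t = ∑ t ∈ range (k - i), r ^ t + ∑ t ∈ range i, r ^ (k - i + t) := by
    rw [← sum_range_add, Nat.sub_add_cancel hik]
  have hk0 : (0 : ℝ) < k := by exact_mod_cast hk
  have h3 : (∑ t ∈ range k, r ^ t) * (i * r ^ (k - 1) / k) ≤ i * r ^ (k - 1) := by
    have h4 : 0 ≤ (i : ℝ) * r ^ (k - 1) / k := by positivity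
    calc (∑ t ∈ range k, r ^ t) * (i * r ^ (k - 1) / k) ≤ k * (i * r ^ (k - 1) / k) :=
          mul_le_mul_of_nonneg_right hq h4
      _ = i * r ^ (k - 1) := by field_simp
  have h5 := Real.add_one_le_exp (-((i : ℝ) * r ^ (k - 1) / k))
  have h6 := mul_le_mul_of_nonneg_left h5 hq0
  linarith

/-- The bound of an error term by the main term. -/
theorem err_le {k E i s : ℕ} (hk : 1 ≤ k) (hik : i ≤ k) {j l : ℤ} {r : ℝ} (hr : 0 < r)
    (hr1 : r ≤ 1) (hrj : (W k E (j - 1) : ℝ) = r * W k E j) (hpos : (0 : ℝ) < W k E j)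
    (hl : l ≤ j - i * s) :
    (W (k - i) E l : ℝ) ≤ (r ^ s * Real.exp (-(E * r ^ (k - 1) / k))) ^ i *
      (((E * (k - 1) : ℕ) + 1 : ℝ) * W k E j) := by
  have h1 := W_le (k - i) E hr l
  have h0 : (0 : ℝ) ≤ W (k - i) E l := by exact_mod_cast W_nonneg _ _ _
  have h2 : r ^ (j - i * s) ≤ r ^ l := zpow_le_zpow_right_of_le_one₀ hr hr1 hl
  have h3 : (W (k - i) E l : ℝ) * r ^ (j - i * s) ≤ (∑ t ∈ range (k - i), r ^ t) ^ E :=
    (mul_le_mul_of_nonneg_left h2 h0).trans h1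
  have h4 : (∑ t ∈ range (k - i), r ^ t) ^ E ≤
      ((∑ t ∈ range k, r ^ t) * Real.exp (-(i * r ^ (k - 1) / k))) ^ E :=
    pow_le_pow_left₀ (sum_nonneg fun t _ => by positivity) (q_le hk hik hr hr1) E
  have h5 := gen_le hk E hr hrj hpos
  have h6 : Real.exp (-(i * r ^ (k - 1) / k)) ^ E =
      Real.exp (-(E * r ^ (k - 1) / k)) ^ i := by
    rw [← Real.exp_nat_mul, ← Real.exp_nat_mul]
    congr 1
    ring
  rw [mul_pow, h6] at h4
  have hx : 0 < Real.exp (-(E * r ^ (k - 1) / k)) ^ i := by positivity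
  have h7 := mul_le_mul_of_nonneg_right h5 hx.le
  have h8 : (W (k - i) E l : ℝ) * r ^ (j - i * s) ≤
      ((E * (k - 1) : ℕ) + 1 : ℝ) * (W k E j * r ^ j) * Real.exp (-(E * r ^ (k - 1) / k)) ^ i :=
    h3.trans (h4.trans h7)
  have h9 : r ^ (j - i * s) = r ^ j / (r ^ s) ^ i := by
    rw [zpow_sub₀ hr.ne', ← pow_mul, ← zpow_natCast r (s * i)]
    push_cast
    rw [mul_comm (s : ℤ)]
  rw [h9] at h8
  have hrj0 : 0 < r ^ j := by positivity
  have hrs : 0 < (r ^ s) ^ i := by positivity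
  rw [mul_pow]
  have h10 : (W (k - i) E l : ℝ) * r ^ j ≤ ((r ^ s) ^ i * Real.exp (-(E * r ^ (k - 1) / k)) ^ i *
      (((E * (k - 1) : ℕ) + 1 : ℝ) * W k E j)) * r ^ j := by
    have h11 := mul_le_mul_of_nonneg_right h8 hrs.le
    calc (W (k - i) E l : ℝ) * r ^ j = W (k - i) E l * (r ^ j / (r ^ s) ^ i) * (r ^ s) ^ i := by
          field_simp
      _ ≤ _ := h11
      _ = _ := by ring
  exact le_of_mul_le_mul_right h10 hrj0

/-- Numerical lemma. -/
theorem num_exp {k n : ℕ} (hk : 2 ≤ k) (hn : 1000 * k ^ 4 ≤ n) :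
    (n : ℝ) ^ 6 ≤ Real.exp (n / (36 * k)) := by
  have hk0 : (2 : ℝ) ≤ k := by exact_mod_cast hk
  have hn0 : 1000 * (k : ℝ) ^ 4 ≤ n := by exact_mod_cast hn
  have hnpos : (0 : ℝ) < n := by
    have : (0 : ℝ) < 1000 * (k : ℝ) ^ 4 := by positivity
    linarith
  have h1 := Real.pow_div_factorial_le_exp ((n : ℝ) / (36 * k)) (by positivity) 24
  refine le_trans ?_ h1
  rw [div_pow, div_div, le_div_iff₀ (by positivity)]
  have h2 : (1000 * (k : ℝ) ^ 4) ^ 18 ≤ (n : ℝ) ^ 18 := pow_le_pow_left₀ (by positivity) hn0 18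
  have h3 : (2 : ℝ) ^ 48 ≤ (k : ℝ) ^ 48 := pow_le_pow_left₀ (by norm_num) hk0 48
  have h4 : (36 * (k : ℝ)) ^ 24 * ((24).factorial : ℝ) ≤ (1000 * (k : ℝ) ^ 4) ^ 18 := by
    have e1 : (1000 * (k : ℝ) ^ 4) ^ 18 = 1000 ^ 18 * (k : ℝ) ^ 48 * (k : ℝ) ^ 24 := by ring
    have e2 : (36 * (k : ℝ)) ^ 24 * ((24).factorial : ℝ) =
        (36 ^ 24 * ((24).factorial : ℝ)) * (k : ℝ) ^ 24 := by ring
    rw [e1, e2]
    apply mul_le_mul_of_nonneg_right _ (by positivity)
    have : (36 : ℝ) ^ 24 * ((24).factorial : ℝ) ≤ 1000 ^ 18 * 2 ^ 48 := by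
      norm_num [Nat.factorial]
    refine this.trans ?_
    apply mul_le_mul_of_nonneg_left h3 (by positivity)
  calc (n : ℝ) ^ 6 * ((36 * (k : ℝ)) ^ 24 * ((24).factorial : ℝ))
      ≤ (n : ℝ) ^ 6 * (n : ℝ) ^ 18 := by
        apply mul_le_mul_of_nonneg_left (h4.trans h2) (by positivity)
    _ = (n : ℝ) ^ 24 := by ring

theorem cube_le (s : ℕ) : ((s : ℝ) + 2) ^ 3 ≤ 8 * 8 ^ s := by
  induction s with
  | zero => norm_num
  | succ s ih =>
    push_cast
    have hs : (0 : ℝ) ≤ s := by positivity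
    calc ((s : ℝ) + 1 + 2) ^ 3 ≤ 8 * ((s : ℝ) + 2) ^ 3 := by nlinarith [pow_nonneg hs 2, pow_nonneg hs 3]
      _ ≤ 8 * (8 * 8 ^ s) := by linarith
      _ = 8 * 8 ^ (s + 1) := by ring

end Pool.Agent.W2helper31.HS
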