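import Pool.Agent.W2helper31.HS.Key

/-!
# The error terms are dominated by the main term: `k` up to a constant times `n / log n`
-/

set_option autoImplicit false

namespace Pool.Agent.W2helper31.HS

open Finset

theorem fin_aux {Y B x : ℝ} (hY : 0 ≤ Y) (hx : 0 ≤ x) (hB : 1 ≤ B) (h : 2 * x * Y * B ≤ 1)
    {i : ℕ} (hi : 1 ≤ i) : x ^ i * Y ^ i * B ≤ (1 / 2) ^ i := by
  have h1 : 2 * x * Y ≤ 1 := by
    have : 0 ≤ 2 * x * Y := by positivity
    nlinarith
  have h2 : (2 * x * Y) ^ i ≤ 2 * x * Y := by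
    calc (2 * x * Y) ^ i ≤ (2 * x * Y) ^ 1 := pow_le_pow_of_le_one (by positivity) h1 hi
      _ = _ := pow_one _
  have h3 : x ^ i * Y ^ i * B = (1 / 2) ^ i * ((2 * x * Y) ^ i * B) := by
    rw [mul_pow, mul_pow]
    have : ((1 : ℝ) / 2) ^ i * 2 ^ i = 1 := by rw [← mul_pow]; norm_num
    calc x ^ i * Y ^ i * B = (((1 : ℝ) / 2) ^ i * 2 ^ i) * (x ^ i * Y ^ i * B) := by rw [this]; ring
      _ = _ := by ring
  rw [h3]
  have h4 : (2 * x * Y) ^ i * B ≤ 1 := by
    have := mul_le_mul_of_nonneg_right h2 (by linarith : (0 : ℝ) ≤ B)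
    linarith
  have h5 : (0 : ℝ) < (1 / 2) ^ i := by positivity
  nlinarith

theorem exp_bound {k n : ℕ} (hk : 2 ≤ k) (hn : 400 * k * (Nat.log 2 n + 1) ≤ n) :
    (n : ℝ) ^ 9 ≤ Real.exp (n / (36 * k)) := by
  have hk0 : (0 : ℝ) < k := by
    have : 0 < k := by omega
    exact_mod_cast this
  set u : ℕ := Nat.log 2 n with hu
  have h1 : n < 2 ^ (u + 1) := Nat.lt_pow_succ_log_self (by norm_num) n
  have h2 : (n : ℝ) ≤ 2 ^ (u + 1) := by exact_mod_cast h1.le
  have h3 : (9 : ℝ) * (u + 1) ≤ n / (36 * k) := by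
    rw [le_div_iff₀ (by positivity)]
    have h4 : 400 * (k : ℝ) * (u + 1) ≤ n := by exact_mod_cast hn
    have h5 : 0 ≤ (k : ℝ) * (u + 1) := by positivity
    linarith
  have h6 : (2 : ℝ) ≤ Real.exp 1 := by
    have := Real.add_one_le_exp (1 : ℝ)
    linarith
  calc (n : ℝ) ^ 9 ≤ (2 ^ (u + 1)) ^ 9 := pow_le_pow_left₀ (by positivity) h2 9
    _ = 2 ^ (9 * (u + 1)) := by rw [← pow_mul, mul_comm]
    _ ≤ (Real.exp 1) ^ (9 * (u + 1)) := pow_le_pow_left₀ (by norm_num) h6 _
    _ = Real.exp (9 * (u + 1)) := by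
        rw [← Real.exp_nat_mul]
        congr 1
        push_cast
        ring
    _ ≤ Real.exp (n / (36 * k)) := Real.exp_le_exp.mpr h3

theorem choose_le (n i : ℕ) : (n.choose i : ℝ) ≤ (n : ℝ) ^ i := by
  exact_mod_cast Nat.choose_le_pow n i

theorem key {k M n s i : ℕ} (hk : 2 ≤ k) (hn : 400 * k * (Nat.log 2 n + 1) ≤ n)
    (hE1 : n ≤ 2 * M) (hE2 : 2 * M ≤ n + 1) {j l : ℤ} (hj1 : 1 ≤ j)
    (hjc : j ≤ ((M * (k - 1) : ℕ) : ℤ)) (hs : Nat.log 2 n + 2 ≤ s) (hjs : j ≤ k * ((s : ℤ) - 1)) (hi : 1 ≤ i) (hik : i ≤ k)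
    (hl : l ≤ j - i * s) :
    (n.choose i : ℝ) * W (k - i) (2 * M) l ≤
      (1 / 2) ^ i * ((W k (2 * M) j : ℝ) - W k (2 * M) (j - 1)) := by
  have hkz : (2 : ℤ) ≤ k := by exact_mod_cast hk
  have hk0 : (2 : ℝ) ≤ k := by exact_mod_cast hk
  have hn0 : 400 * (k : ℝ) ≤ n := by
    have h1 : 400 * k ≤ n := le_trans (Nat.le_mul_of_pos_right _ (by omega)) hn
    exact_mod_cast h1
  have hnbig : (800 : ℝ) ≤ n := by linarith
  have hkn : (k : ℝ) ≤ n := by linarith
  set c : ℕ := M * (k - 1) with hc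
  have hcz : (c : ℤ) = M * (k - 1) := by rw [hc]; push_cast [Nat.cast_sub (by omega : 1 ≤ k)]; ring
  have hE1r : (n : ℝ) ≤ ((2 * M : ℕ) : ℝ) := by exact_mod_cast hE1
  have hE2r : ((2 * M : ℕ) : ℝ) ≤ n + 1 := by exact_mod_cast hE2
  have hN : (2 * M * (k - 1) : ℕ) = 2 * c := by rw [hc]; ring
  have hNr : 2 * (c : ℝ) + 1 ≤ n * k := by
    have h1 : 2 * (c : ℝ) = ((2 * M : ℕ) : ℝ) * (k - 1) := by
      rw [hc]; push_cast [Nat.cast_sub (by omega : 1 ≤ k)]; ring
    rw [h1]
    nlinarith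
  have hcpos : (1 : ℝ) ≤ c := by
    have : (1 : ℤ) ≤ c := by omega
    exact_mod_cast this
  -- the coefficient and its ratio
  have hE2c : ((2 * M : ℕ) : ℤ) * (k - 1) = 2 * c := by push_cast; rw [hcz]; ring
  have hapos : (0 : ℝ) < W k (2 * M) j := by
    have : 0 < W k (2 * M) j := W_pos (by omega) _ (by omega) (by rw [hE2c]; omega)
    exact_mod_cast this
  have hbpos : (0 : ℝ) < W k (2 * M) (j - 1) := by
    have : 0 < W k (2 * M) (j - 1) := W_pos (by omega) _ (by omega) (by rw [hE2c]; omega)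
    exact_mod_cast this
  have hab : (W k (2 * M) (j - 1) : ℝ) ≤ W k (2 * M) j := by
    exact_mod_cast W_mono k (2 * M) (x := j) (by rw [hE2c]; omega)
  set a : ℝ := ((W k (2 * M) j : ℤ) : ℝ) with ha
  set b : ℝ := ((W k (2 * M) (j - 1) : ℤ) : ℝ) with hb
  set r : ℝ := b / a with hr
  have hr0 : 0 < r := div_pos hbpos hapos
  have hr1 : r ≤ 1 := (div_le_one hapos).mpr hab
  have hrj : b = r * a := by rw [hr]; field_simp
  have hmain := err_le (E := 2 * M) (s := s) (i := i) (by omega : 1 ≤ k) hik hr0 hr1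
    (by rw [← hb, ← ha]; exact hrj) (by rw [← ha]; exact hapos) hl
  rw [← ha, hN] at hmain
  set Y : ℝ := r ^ s * Real.exp (-(((2 * M : ℕ) : ℝ) * r ^ (k - 1) / k)) with hY
  have hY0 : 0 ≤ Y := by positivity
  -- reduction to two inequalities
  have red : ∀ K : ℝ, 1 ≤ K → a ≤ K * (a - b) → 2 * n * Y * ((2 * c + 1) * K) ≤ 1 →
      (n.choose i : ℝ) * W (k - i) (2 * M) l ≤ (1 / 2) ^ i * (a - b) := by
    intro K hK1 hK hKY
    have h1 : 1 ≤ (2 * (c : ℝ) + 1) * K := by nlinarith
    have h2 := fin_aux (i := i) hY0 (by positivity : (0 : ℝ) ≤ n) h1 hKY hi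
    have h3 : 0 ≤ a - b := by linarith
    have h4 : (W (k - i) (2 * M) l : ℝ) ≤ Y ^ i * ((2 * c + 1) * (K * (a - b))) := by
      refine hmain.trans ?_
      apply mul_le_mul_of_nonneg_left _ (by positivity)
      push_cast
      apply mul_le_mul_of_nonneg_left hK (by positivity)
    have h5 : (0 : ℝ) ≤ W (k - i) (2 * M) l := by exact_mod_cast W_nonneg _ _ _
    calc (n.choose i : ℝ) * W (k - i) (2 * M) l
        ≤ (n : ℝ) ^ i * (Y ^ i * ((2 * c + 1) * (K * (a - b)))) :=
          mul_le_mul (choose_le n i) h4 h5 (by positivity)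
      _ = ((n : ℝ) ^ i * Y ^ i * ((2 * c + 1) * K)) * (a - b) := by ring
      _ ≤ (1 / 2) ^ i * (a - b) := mul_le_mul_of_nonneg_right h2 h3
  have hj1r : (1 : ℝ) ≤ j := by exact_mod_cast hj1
  have hjsr : (j : ℝ) ≤ k * ((s : ℝ) - 1) := by exact_mod_cast hjs
  have hs0 : (2 : ℝ) ≤ s := by exact_mod_cast (by omega : 2 ≤ s)
  have hexp1 : Real.exp (-(((2 * M : ℕ) : ℝ) * r ^ (k - 1) / k)) ≤ 1 := by
    apply Real.exp_le_one_iff.mpr
    have : 0 ≤ ((2 * M : ℕ) : ℝ) * r ^ (k - 1) / k := by positivity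
    linarith
  have hrs1 : r ^ s ≤ 1 := pow_le_one₀ hr0.le hr1
  by_cases hC : 16 * j ≤ ((2 * M : ℕ) : ℤ)
  · -- small places
    have h1 := ratio_small hk (E := 2 * M) (j := j) (by omega)
    have h2 : ((2 * M : ℕ) : ℝ) * b ≤ 2 * j * a := by
      rw [ha, hb]; exact_mod_cast h1
    have hE0 : (0 : ℝ) < ((2 * M : ℕ) : ℝ) := by linarith
    have hCr : 16 * (j : ℝ) ≤ ((2 * M : ℕ) : ℝ) := by exact_mod_cast hC
    have h3 : r * ((2 * M : ℕ) : ℝ) ≤ 2 * j := by
      have : (r * ((2 * M : ℕ) : ℝ)) * a ≤ (2 * j) * a := by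
        calc (r * ((2 * M : ℕ) : ℝ)) * a = ((2 * M : ℕ) : ℝ) * (r * a) := by ring
          _ = ((2 * M : ℕ) : ℝ) * b := by rw [← hrj]
          _ ≤ (2 * j) * a := h2
      exact le_of_mul_le_mul_right this hapos
    have h4 : r ≤ 1 / 8 := by
      by_contra hcon
      push Not at hcon
      nlinarith
    apply red 2 (by norm_num)
    · rw [hrj]; nlinarith
    · set u : ℕ := Nat.log 2 n with hu
      have h6 : Y ≤ (1 / 8) ^ (u + 2) := by
        rw [hY]
        calc r ^ s * Real.exp (-(((2 * M : ℕ) : ℝ) * r ^ (k - 1) / k))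
            ≤ r ^ s * 1 := mul_le_mul_of_nonneg_left hexp1 (by positivity)
          _ = r ^ s := mul_one _
          _ ≤ r ^ (u + 2) := pow_le_pow_of_le_one hr0.le hr1 hs
          _ ≤ (1 / 8) ^ (u + 2) := pow_le_pow_left₀ hr0.le h4 _
      have h7 : n < 2 ^ (u + 1) := Nat.lt_pow_succ_log_self (by norm_num) n
      have h8 : (n : ℝ) ≤ 2 ^ (u + 1) := by exact_mod_cast h7.le
      have h9 : 8 * (n : ℝ) ^ 3 * (1 / 8) ^ (u + 2) ≤ 1 := by
        have e : (8 : ℝ) * (2 ^ (u + 1)) ^ 3 * (1 / 8) ^ (u + 2) = 1 := by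
          have e1 : ((2 : ℝ) ^ (u + 1)) ^ 3 = 8 ^ (u + 1) := by
            rw [← pow_mul, mul_comm, pow_mul]; norm_num
          rw [e1, show (8 : ℝ) * 8 ^ (u + 1) = 8 ^ (u + 2) by ring, ← mul_pow]
          norm_num
        refine le_trans ?_ e.le
        apply mul_le_mul_of_nonneg_right _ (by positivity)
        apply mul_le_mul_of_nonneg_left _ (by norm_num)
        exact pow_le_pow_left₀ (by positivity) h8 3
      have hnpos : (0 : ℝ) < n := by linarith
      calc 2 * (n : ℝ) * Y * ((2 * c + 1) * 2) ≤ 2 * (n : ℝ) * (1 / 8) ^ (u + 2) * ((n * k) * 2) := by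
            apply mul_le_mul _ _ (by positivity) (by positivity)
            · exact mul_le_mul_of_nonneg_left h6 (by positivity)
            · linarith
        _ = 4 * (n : ℝ) ^ 2 * k * (1 / 8) ^ (u + 2) := by ring
        _ ≤ 4 * (n : ℝ) ^ 2 * n * (1 / 8) ^ (u + 2) := by
            apply mul_le_mul_of_nonneg_right _ (by positivity)
            exact mul_le_mul_of_nonneg_left hkn (by positivity)
        _ ≤ 8 * (n : ℝ) ^ 3 * (1 / 8) ^ (u + 2) := by
            apply mul_le_mul_of_nonneg_right _ (by positivity)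
            have : (0 : ℝ) < (n : ℝ) ^ 3 := by positivity
            nlinarith
        _ ≤ 1 := h9
  · -- the other places
    have hYexp : Y ≤ Real.exp (-(n / (36 * k))) := by
      by_cases hB : 4 * j ≤ ((2 * M : ℕ) : ℤ) * (k - 1)
      · have hE2' : 2 ≤ 2 * M := by
          have : (2 : ℝ) ≤ ((2 * M : ℕ) : ℝ) := by linarith
          exact_mod_cast this
        have h1 := drop_medium hk hE2' (by omega : 0 ≤ j) hB
        rw [← ha, ← hb] at h1
        have hCr : ((2 * M : ℕ) : ℝ) ≤ 16 * j := by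
          push Not at hC
          exact_mod_cast hC.le
        have h2 : ((2 * M : ℕ) : ℝ) ≤ 2 * (2 * j + ((2 * M : ℕ) : ℝ)) * (1 - r) := by
          have : ((2 * M : ℕ) : ℝ) * a ≤ (2 * (2 * j + ((2 * M : ℕ) : ℝ)) * (1 - r)) * a := by
            rw [hrj] at h1
            linarith
          exact le_of_mul_le_mul_right this hapos
        have h3 : 0 ≤ 1 - r := by linarith
        have h4 : (n : ℝ) / (36 * k) ≤ s * (1 - r) := by
          rw [div_le_iff₀ (by positivity)]
          have h5 : 2 * (2 * j + ((2 * M : ℕ) : ℝ)) * (1 - r) ≤ 36 * j * (1 - r) := by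
            apply mul_le_mul_of_nonneg_right _ h3
            linarith
          have h6 : 36 * (j : ℝ) * (1 - r) ≤ 36 * (k * s) * (1 - r) := by
            apply mul_le_mul_of_nonneg_right _ h3
            nlinarith
          linarith
        have h7 : r ≤ Real.exp (-(1 - r)) := by
          have := Real.add_one_le_exp (-(1 - r))
          linarith
        have h8 : r ^ s ≤ Real.exp (-(n / (36 * k))) := by
          calc r ^ s ≤ (Real.exp (-(1 - r))) ^ s := pow_le_pow_left₀ hr0.le h7 s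
            _ = Real.exp (s * (-(1 - r))) := by rw [← Real.exp_nat_mul]
            _ ≤ Real.exp (-(n / (36 * k))) := by
              apply Real.exp_le_exp.mpr
              linarith
        calc Y ≤ r ^ s * 1 := mul_le_mul_of_nonneg_left hexp1 (by positivity)
          _ ≤ _ := by rw [mul_one]; exact h8
      · push Not at hB
        by_cases hD : 1 / 4 ≤ r ^ (k - 1)
        · have h1 : (n : ℝ) / (36 * k) ≤ ((2 * M : ℕ) : ℝ) * r ^ (k - 1) / k := by
            rw [div_le_div_iff₀ (by positivity) (by positivity)]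
            have h2 : (n : ℝ) * (1 / 4) ≤ ((2 * M : ℕ) : ℝ) * r ^ (k - 1) :=
              mul_le_mul hE1r hD (by norm_num) (by positivity)
            nlinarith
          calc Y ≤ 1 * Real.exp (-(((2 * M : ℕ) : ℝ) * r ^ (k - 1) / k)) :=
                mul_le_mul_of_nonneg_right hrs1 (by positivity)
            _ ≤ _ := by
              rw [one_mul]
              apply Real.exp_le_exp.mpr
              linarith
        · push Not at hD
          have h1 : r ^ (k - 1) ≤ Real.exp (-1) := by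
            have h2 := Real.exp_one_lt_d9
            have h3 : Real.exp (-1) * Real.exp 1 = 1 := by rw [← Real.exp_add]; norm_num
            have h4 := Real.exp_pos (-1)
            have h5 : (1 : ℝ) / 4 ≤ Real.exp (-1) := by nlinarith
            linarith
          have hk1 : ((k - 1 : ℕ) : ℝ) = k - 1 := by push_cast [Nat.cast_sub (by omega : 1 ≤ k)]; ring
          have hBr : ((2 * M : ℕ) : ℝ) * (k - 1) ≤ 4 * j := by exact_mod_cast hB.le
          have h6 : (r ^ s) ^ (k - 1) ≤ (Real.exp (-(n / (36 * k)))) ^ (k - 1) := by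
            calc (r ^ s) ^ (k - 1) = (r ^ (k - 1)) ^ s := by rw [← pow_mul, ← pow_mul, mul_comm]
              _ ≤ (Real.exp (-1)) ^ s := pow_le_pow_left₀ (by positivity) h1 s
              _ = Real.exp (s * (-1)) := by rw [← Real.exp_nat_mul]
              _ ≤ Real.exp (((k - 1 : ℕ) : ℝ) * (-(n / (36 * k)))) := by
                apply Real.exp_le_exp.mpr
                rw [hk1]
                have h7 : ((k : ℝ) - 1) * (n / (36 * k)) ≤ s := by
                  rw [mul_div_assoc', div_le_iff₀ (by positivity)]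
                  have h8 : ((k : ℝ) - 1) * n ≤ ((2 * M : ℕ) : ℝ) * (k - 1) := by
                    have : (0 : ℝ) ≤ k - 1 := by linarith
                    nlinarith
                  nlinarith
                linarith
              _ = (Real.exp (-(n / (36 * k)))) ^ (k - 1) := by rw [← Real.exp_nat_mul]
          have h9 : r ^ s ≤ Real.exp (-(n / (36 * k))) :=
            le_of_pow_le_pow_left₀ (by omega : k - 1 ≠ 0) (Real.exp_pos _).le h6
          calc Y ≤ r ^ s * 1 := mul_le_mul_of_nonneg_left hexp1 (by positivity)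
            _ ≤ _ := by rw [mul_one]; exact h9
    have hdrop := drop (by omega : 1 ≤ k) M c hc hjc
    rw [← ha, ← hb] at hdrop
    apply red (2 * ((c : ℝ) + 1) ^ 2 * (c + 2)) _ hdrop
    · have h1 := exp_bound hk hn
      have h2 : Y * (n : ℝ) ^ 9 ≤ 1 := by
        calc Y * (n : ℝ) ^ 9 ≤ Real.exp (-(n / (36 * k))) * Real.exp (n / (36 * k)) :=
              mul_le_mul hYexp h1 (by positivity) (by positivity)
          _ = 1 := by rw [← Real.exp_add]; simp
      have hnk : (0 : ℝ) < n * k := by positivity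
      have h3 : (2 * (c : ℝ) + 1) * (2 * ((c : ℝ) + 1) ^ 2 * (c + 2)) ≤
          (n * k) * (2 * (n * k) ^ 2 * (n * k)) := by
        have hc1 : (c : ℝ) + 1 ≤ n * k := by linarith
        have hc2 : (c : ℝ) + 2 ≤ n * k := by linarith
        have hc3 : ((c : ℝ) + 1) ^ 2 ≤ (n * k) ^ 2 := pow_le_pow_left₀ (by positivity) hc1 2
        apply mul_le_mul hNr _ (by positivity) (by positivity)
        apply mul_le_mul _ hc2 (by positivity) (by positivity)
        linarith
      calc 2 * (n : ℝ) * Y * ((2 * (c : ℝ) + 1) * (2 * ((c : ℝ) + 1) ^ 2 * (c + 2)))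
          ≤ 2 * (n : ℝ) * Y * ((n * k) * (2 * (n * k) ^ 2 * (n * k))) :=
            mul_le_mul_of_nonneg_left h3 (by positivity)
        _ = Y * n ^ 5 * (4 * (k : ℝ) ^ 4) := by ring
        _ ≤ Y * n ^ 5 * (n : ℝ) ^ 4 := by
            apply mul_le_mul_of_nonneg_left _ (by positivity)
            have h5 : 2 * (k : ℝ) ≤ n := by linarith
            have h6 : (2 * (k : ℝ)) ^ 4 ≤ (n : ℝ) ^ 4 := pow_le_pow_left₀ (by positivity) h5 4
            have h7 : (0 : ℝ) ≤ (k : ℝ) ^ 4 := by positivity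
            have h8 : (2 * (k : ℝ)) ^ 4 = 16 * (k : ℝ) ^ 4 := by ring
            linarith
        _ = Y * n ^ 9 := by ring
        _ ≤ 1 := h2
    · have : (1 : ℝ) ≤ ((c : ℝ) + 1) ^ 2 := one_le_pow₀ (by linarith)
      nlinarith

end Pool.Agent.W2helper31.HS
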