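import Mathlib

/-!
# The first entries of the `h*`-vector of a hypersimplex increase
-/

set_option autoImplicit false

namespace Pool.Agent.W2helper31.HS

open Finset

/-- The lattice points of `t Δ_{k,n}`. -/
def X (n k t : ℕ) : Finset (Fin n → Fin (t + 1)) :=
  (univ : Finset (Fin n → Fin (t + 1))).filter (fun x => ∑ i, (x i : ℕ) = k * t)

/-- Add one to the entries in `A`. -/
def addOn {n t : ℕ} (p : (Fin n → Fin (t + 1)) × Finset (Fin n)) : Fin n → Fin (t + 2) :=
  fun i => if i ∈ p.2 then (p.1 i).succ else (p.1 i).castSucc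

theorem addOn_val {n t : ℕ} (p : (Fin n → Fin (t + 1)) × Finset (Fin n)) (i : Fin n) :
    (addOn p i : ℕ) = (p.1 i : ℕ) + if i ∈ p.2 then 1 else 0 := by
  unfold addOn
  split_ifs <;> simp

theorem ratio_card (n k t : ℕ) :
    (X n k t).card * n.choose k ≤ (X n k (t + 1)).card * (k * (t + 1)).choose k := by
  have h1 : (X n k t).card * n.choose k = (X n k t ×ˢ powersetCard k (univ : Finset (Fin n))).card := by
    rw [card_product, card_powersetCard, card_univ, Fintype.card_fin]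
  rw [h1, mul_comm]
  refine card_le_mul_card_image_of_maps_to (f := addOn) (t := X n k (t + 1)) ?_ _ ?_
  · rintro ⟨x, A⟩ hp
    rw [mem_product] at hp
    obtain ⟨hx, hA⟩ := hp
    simp only [X, mem_filter, mem_univ, true_and] at hx ⊢
    rw [mem_powersetCard] at hA
    rw [sum_congr rfl fun i _ => addOn_val (x, A) i, sum_add_distrib, hx]
    simp only [sum_ite_mem, univ_inter, sum_const, smul_eq_mul, mul_one, hA.2]
    ring
  · intro y hy
    simp only [X, mem_filter, mem_univ, true_and] at hy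
    set s : Finset (Fin n) := univ.filter (fun i => (y i : ℕ) ≠ 0) with hs
    have hcs : s.card ≤ k * (t + 1) := by
      rw [← hy, card_eq_sum_ones, hs, sum_filter]
      refine sum_le_sum fun i _ => ?_
      split_ifs with h
      · omega
      · omega
    refine le_trans ?_ (Nat.choose_le_choose k hcs)
    rw [← card_powersetCard]
    refine card_le_card_of_injOn (fun p => p.2) ?_ ?_
    · rintro ⟨x, A⟩ hp
      simp only [coe_filter, mem_product, Set.mem_ofPred_eq] at hp
      obtain ⟨⟨_, hA⟩, hxy⟩ := hp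
      rw [mem_powersetCard] at hA
      show A ∈ ((powersetCard k s : Finset (Finset (Fin n))) : Set (Finset (Fin n)))
      rw [mem_coe, mem_powersetCard]
      refine ⟨?_, hA.2⟩
      intro i hi
      rw [hs, mem_filter]
      refine ⟨mem_univ _, ?_⟩
      rw [← hxy, addOn_val, if_pos hi]
      omega
    · rintro ⟨x, A⟩ hp ⟨x', A'⟩ hp' hAA
      simp only at hAA
      subst hAA
      simp only [coe_filter, mem_product, Set.mem_ofPred_eq] at hp hp'
      have : x = x' := by
        funext i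
        have h2 : (addOn (x, A) i : ℕ) = addOn (x', A) i := by rw [hp.2, hp'.2]
        rw [addOn_val, addOn_val] at h2
        apply Fin.ext
        exact Nat.add_right_cancel h2
      rw [this]

theorem choose_ratio {N n : ℕ} (hN : N ≤ n) (k : ℕ) :
    N.choose k * n ^ k ≤ n.choose k * N ^ k := by
  have h : N.descFactorial k * n ^ k ≤ n.descFactorial k * N ^ k := by
    induction k with
    | zero => simp
    | succ k ih =>
      rw [Nat.descFactorial_succ, Nat.descFactorial_succ, pow_succ, pow_succ]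
      have h1 : (N - k) * n ≤ (n - k) * N := by
        by_cases hk : k ≤ N
        · obtain ⟨a, rfl⟩ := Nat.exists_eq_add_of_le hk
          obtain ⟨b, rfl⟩ := Nat.exists_eq_add_of_le hN
          rw [show k + a - k = a by omega, show k + a + b - k = a + b by omega]
          nlinarith
        · rw [Nat.sub_eq_zero_of_le (by omega : N ≤ k)]
          simp
      calc (N - k) * N.descFactorial k * (n ^ k * n)
          = (N.descFactorial k * n ^ k) * ((N - k) * n) := by ring
        _ ≤ (n.descFactorial k * N ^ k) * ((n - k) * N) := Nat.mul_le_mul ih h1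
        _ = (n - k) * n.descFactorial k * (N ^ k * N) := by ring
  rw [Nat.descFactorial_eq_factorial_mul_choose, Nat.descFactorial_eq_factorial_mul_choose] at h
  have hk : 0 < k.factorial := Nat.factorial_pos k
  apply Nat.le_of_mul_le_mul_left _ hk
  calc k.factorial * (N.choose k * n ^ k) = k.factorial * N.choose k * n ^ k := by ring
    _ ≤ k.factorial * n.choose k * N ^ k := h
    _ = k.factorial * (n.choose k * N ^ k) := by ring

theorem card_ratio {n k t : ℕ} (hk : k ≤ n) (ht : k * (t + 1) ≤ n) :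
    (X n k t).card * n ^ k ≤ (X n k (t + 1)).card * (k * (t + 1)) ^ k := by
  have h1 := ratio_card n k t
  have h2 := choose_ratio ht k
  have h3 : 0 < n.choose k := Nat.choose_pos hk
  apply Nat.le_of_mul_le_mul_left _ h3
  calc n.choose k * ((X n k t).card * n ^ k) = ((X n k t).card * n.choose k) * n ^ k := by ring
    _ ≤ ((X n k (t + 1)).card * (k * (t + 1)).choose k) * n ^ k := Nat.mul_le_mul_right _ h1
    _ = (X n k (t + 1)).card * ((k * (t + 1)).choose k * n ^ k) := by ring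
    _ ≤ (X n k (t + 1)).card * (n.choose k * (k * (t + 1)) ^ k) := Nat.mul_le_mul_left _ h2
    _ = n.choose k * ((X n k (t + 1)).card * (k * (t + 1)) ^ k) := by ring

theorem pow_bound {n T : ℕ} (h2 : (2 * T) ^ 2 * (2 * (n + 1)) ≤ n ^ 2) {k : ℕ} (hk : 2 ≤ k)
    (hkT : 3 * k * T ≤ n) : ((k : ℝ) * T) ^ k * (2 * (n + 1)) ≤ (n : ℝ) ^ k := by
  induction k, hk using Nat.le_induction with
  | base =>
    have := (Nat.cast_le (α := ℝ)).mpr h2
    push_cast at this ⊢
    exact this
  | succ k hk ih =>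
    have h3 : 3 * k * T ≤ n := le_trans (Nat.mul_le_mul_right T (by omega)) hkT
    have ih := ih h3
    have hk0 : (0 : ℝ) < k := by
      have : 0 < k := by omega
      exact_mod_cast this
    have e1 : (((k + 1 : ℕ) : ℝ) * T) ^ (k + 1) =
        (((k + 1 : ℕ) : ℝ) * T) * ((1 + 1 / (k : ℝ)) ^ k * ((k : ℝ) * T) ^ k) := by
      rw [← mul_pow, pow_succ, mul_comm]
      congr 1
      congr 1
      push_cast
      field_simp
    have h4 : (1 + 1 / (k : ℝ)) ^ k ≤ 3 := by
      have h5 : 1 + 1 / (k : ℝ) ≤ Real.exp (1 / k) := by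
        have := Real.add_one_le_exp (1 / (k : ℝ))
        linarith
      calc (1 + 1 / (k : ℝ)) ^ k ≤ (Real.exp (1 / k)) ^ k :=
            pow_le_pow_left₀ (by positivity) h5 k
        _ = Real.exp 1 := by
            rw [← Real.exp_nat_mul]
            congr 1
            field_simp
        _ ≤ 3 := by
            have := Real.exp_one_lt_d9
            linarith
    have h6 : 3 * ((k + 1 : ℕ) : ℝ) * T ≤ n := by exact_mod_cast hkT
    rw [e1]
    have hT : (0 : ℝ) ≤ T := by positivity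
    calc ((k + 1 : ℕ) : ℝ) * T * ((1 + 1 / (k : ℝ)) ^ k * ((k : ℝ) * T) ^ k) * (2 * (n + 1))
        = (((k + 1 : ℕ) : ℝ) * T * (1 + 1 / (k : ℝ)) ^ k) *
          (((k : ℝ) * T) ^ k * (2 * (n + 1))) := by ring
      _ ≤ (((k + 1 : ℕ) : ℝ) * T * 3) * (n : ℝ) ^ k := by
          apply mul_le_mul _ ih (by positivity) (by positivity)
          apply mul_le_mul_of_nonneg_left h4 (by positivity)
      _ ≤ n * (n : ℝ) ^ k := by
          apply mul_le_mul_of_nonneg_right _ (by positivity)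
          linarith
      _ = (n : ℝ) ^ (k + 1) := by ring

theorem card_ratio' {n k t T : ℕ} (h2 : (2 * T) ^ 2 * (2 * (n + 1)) ≤ n ^ 2) (hk : 2 ≤ k)
    (hkT : 3 * k * T ≤ n) (ht : t + 1 ≤ T) :
    2 * ((n : ℝ) + 1) * (X n k t).card ≤ (X n k (t + 1)).card := by
  have hkt : k * (t + 1) ≤ n := by
    refine le_trans (Nat.mul_le_mul_left k ht) ?_
    refine le_trans ?_ hkT
    exact Nat.mul_le_mul_right T (by omega)
  have hkn : k ≤ n := le_trans (Nat.le_mul_of_pos_right k (by omega)) hkt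
  have h3 := card_ratio hkn hkt
  have h4 : ((X n k t).card : ℝ) * (n : ℝ) ^ k ≤ (X n k (t + 1)).card * ((k : ℝ) * (t + 1)) ^ k := by
    exact_mod_cast h3
  have h5 := pow_bound h2 hk hkT
  have hpos : 0 < ((k : ℝ) * (t + 1)) ^ k := by
    have : (0 : ℝ) < k := by
      have : 0 < k := by omega
      exact_mod_cast this
    positivity
  have h6 : ((k : ℝ) * (t + 1)) ^ k ≤ ((k : ℝ) * T) ^ k := by
    apply pow_le_pow_left₀ (by positivity)
    apply mul_le_mul_of_nonneg_left _ (by positivity)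
    exact_mod_cast ht
  have h7 : (2 * ((n : ℝ) + 1) * (X n k t).card) * ((k : ℝ) * (t + 1)) ^ k ≤
      (X n k (t + 1)).card * ((k : ℝ) * (t + 1)) ^ k := by
    refine le_trans ?_ h4
    calc (2 * ((n : ℝ) + 1) * (X n k t).card) * ((k : ℝ) * (t + 1)) ^ k
        ≤ (2 * ((n : ℝ) + 1) * (X n k t).card) * ((k : ℝ) * T) ^ k :=
          mul_le_mul_of_nonneg_left h6 (by positivity)
      _ = (X n k t).card * (((k : ℝ) * T) ^ k * (2 * (n + 1))) := by ring
      _ ≤ (X n k t).card * (n : ℝ) ^ k := mul_le_mul_of_nonneg_left h5 (by positivity)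
  exact le_of_mul_le_mul_right h7 hpos

theorem step_L {n : ℕ} {L : ℕ → ℕ} {h : ℕ → ℤ}
    (hh : ∀ i : ℕ, h i = ∑ j ∈ range (i + 1), (-1 : ℤ) ^ j * (n.choose j : ℤ) * (L (i - j) : ℤ))
    (d : ℕ) : h (d + 1) - h d = L (d + 1) +
      ∑ j ∈ range (d + 1), (-1 : ℤ) ^ (j + 1) * ((n + 1).choose (j + 1) : ℤ) * (L (d - j) : ℤ) := by
  rw [hh, hh, sum_range_succ']
  have e : ∀ j ∈ range (d + 1), (-1 : ℤ) ^ (j + 1) * (n.choose (j + 1) : ℤ) *
      (L (d + 1 - (j + 1)) : ℤ) = (-1 : ℤ) ^ (j + 1) * (n.choose (j + 1) : ℤ) * (L (d - j) : ℤ) := by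
    intro j _
    rw [show d + 1 - (j + 1) = d - j by omega]
  rw [sum_congr rfl e]
  have e2 : ∑ j ∈ range (d + 1), (-1 : ℤ) ^ (j + 1) * ((n + 1).choose (j + 1) : ℤ) *
      (L (d - j) : ℤ) = ∑ j ∈ range (d + 1), (-1 : ℤ) ^ (j + 1) * (n.choose (j + 1) : ℤ) *
      (L (d - j) : ℤ) - ∑ j ∈ range (d + 1), (-1 : ℤ) ^ j * (n.choose j : ℤ) * (L (d - j) : ℤ) := by
    rw [← sum_sub_distrib]
    refine sum_congr rfl fun j _ => ?_
    rw [Nat.choose_succ_succ, pow_succ]
    push_cast
    ring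
  rw [e2]
  simp
  ring

theorem geom_le' (p : ℕ) : ∑ i ∈ range p, ((1 : ℝ) / 2) ^ (i + 1) ≤ 1 := by
  have : ∀ p : ℕ, ∑ i ∈ range p, ((1 : ℝ) / 2) ^ (i + 1) = 1 - (1 / 2) ^ p := by
    intro p
    induction p with
    | zero => simp
    | succ p ih => rw [sum_range_succ, ih, pow_succ]; ring
  rw [this]
  have : (0 : ℝ) ≤ (1 / 2) ^ p := by positivity
  linarith

theorem small_up {n k T : ℕ} {L : ℕ → ℕ} {h : ℕ → ℤ}
    (h2 : (2 * T) ^ 2 * (2 * (n + 1)) ≤ n ^ 2) (hk : 2 ≤ k) (hkT : 3 * k * T ≤ n)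
    (hL : ∀ t : ℕ, L t = ((univ : Finset (Fin n → Fin (t + 1))).filter
      (fun x => ∑ i, (x i : ℕ) = k * t)).card)
    (hh : ∀ i : ℕ, h i = ∑ j ∈ range (i + 1), (-1 : ℤ) ^ j * (n.choose j : ℤ) * (L (i - j) : ℤ))
    {d : ℕ} (hd : d + 1 ≤ T) : h d ≤ h (d + 1) := by
  have hr : ∀ t, t + 1 ≤ T → 2 * ((n : ℝ) + 1) * L t ≤ L (t + 1) := by
    intro t ht
    rw [hL, hL]
    exact card_ratio' h2 hk hkT ht
  have hn1 : (0 : ℝ) < (n : ℝ) + 1 := by positivity
  have hj : ∀ j : ℕ, j ≤ d → (2 * ((n : ℝ) + 1)) ^ (j + 1) * L (d - j) ≤ L (d + 1) := by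
    intro j
    induction j with
    | zero => intro _; simpa using hr d hd
    | succ j ih =>
      intro hjd
      have h3 := hr (d - (j + 1)) (by omega)
      rw [show d - (j + 1) + 1 = d - j by omega] at h3
      calc (2 * ((n : ℝ) + 1)) ^ (j + 1 + 1) * L (d - (j + 1))
          = (2 * ((n : ℝ) + 1)) ^ (j + 1) * (2 * ((n : ℝ) + 1) * L (d - (j + 1))) := by ring
        _ ≤ (2 * ((n : ℝ) + 1)) ^ (j + 1) * L (d - j) :=
            mul_le_mul_of_nonneg_left h3 (by positivity)
        _ ≤ L (d + 1) := ih (by omega)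
  have hterm : ∀ j ∈ range (d + 1), |(((-1 : ℤ) ^ (j + 1) * ((n + 1).choose (j + 1) : ℤ) *
      (L (d - j) : ℤ) : ℤ) : ℝ)| ≤ (1 / 2) ^ (j + 1) * L (d + 1) := by
    intro j hj'
    rw [mem_range] at hj'
    have h3 := hj j (by omega)
    have h4 : ((n + 1).choose (j + 1) : ℝ) ≤ ((n : ℝ) + 1) ^ (j + 1) := by
      exact_mod_cast Nat.choose_le_pow (n + 1) (j + 1)
    push_cast
    rw [abs_mul, abs_mul, abs_pow, abs_neg, abs_one, one_pow, one_mul, Nat.abs_cast, Nat.abs_cast]
    have e : ((1 : ℝ) / 2) ^ (j + 1) * 2 ^ (j + 1) = 1 := by rw [← mul_pow]; norm_num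
    calc ((n + 1).choose (j + 1) : ℝ) * L (d - j) ≤ ((n : ℝ) + 1) ^ (j + 1) * L (d - j) :=
          mul_le_mul_of_nonneg_right h4 (by positivity)
      _ = (((1 : ℝ) / 2) ^ (j + 1) * 2 ^ (j + 1)) * (((n : ℝ) + 1) ^ (j + 1) * L (d - j)) := by
          rw [e]; ring
      _ = (1 / 2) ^ (j + 1) * ((2 * ((n : ℝ) + 1)) ^ (j + 1) * L (d - j)) := by
          rw [mul_pow]; ring
      _ ≤ (1 / 2) ^ (j + 1) * L (d + 1) := mul_le_mul_of_nonneg_left h3 (by positivity)
  have hsum : |∑ j ∈ range (d + 1), (((-1 : ℤ) ^ (j + 1) * ((n + 1).choose (j + 1) : ℤ) *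
      (L (d - j) : ℤ) : ℤ) : ℝ)| ≤ L (d + 1) := by
    refine (abs_sum_le_sum_abs _ _).trans ?_
    refine (sum_le_sum hterm).trans ?_
    rw [← sum_mul]
    have := geom_le' (d + 1)
    have h0 : (0 : ℝ) ≤ L (d + 1) := by positivity
    nlinarith
  have h3 := (abs_le.mp hsum).1
  have h4 := congrArg (fun z : ℤ => (z : ℝ)) (step_L hh d)
  have h5 : (0 : ℝ) ≤ ((h (d + 1) - h d : ℤ) : ℝ) := by
    rw [step_L hh d]
    push_cast at h3 ⊢
    linarith
  have h6 : (0 : ℤ) ≤ h (d + 1) - h d := by exact_mod_cast h5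
  linarith

end Pool.Agent.W2helper31.HS
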