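import Pool.Agent.W2helper31.HS.Key2
import Pool.Agent.W2helper31.HS.Ehr
import Pool.Agent.W2helper31.HS.Small

/-!
# Unimodality of the `h*`-vector of a hypersimplex
-/

set_option autoImplicit false

namespace Pool.Agent.W2helper31.HS

open Finset

/-- The difference of two coefficients at the distance `m`. -/
def G (n m : ℕ) (l : ℤ) : ℤ := W m n l - W m n (l - m)

theorem G_eq (n m : ℕ) (l : ℤ) : G n m l = W m (n + 1) l - W m (n + 1) (l - 1) :=
  (W_step m n l).symm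

theorem G_refl (n m : ℕ) (l : ℤ) : G n m l = -G n m ((n + 1) * (m - 1) + 1 - l) := by
  have h1 := W_symm m n (l - m)
  have h2 := W_symm m n l
  unfold G
  rw [show ((n : ℤ) + 1) * (m - 1) + 1 - l = n * (m - 1) - (l - m) by ring, h1,
    show (n : ℤ) * (m - 1) - (l - m) - m = n * (m - 1) - l by ring, h2]
  ring

theorem G_two (n m M : ℕ) (h1 : n ≤ 2 * M) (h2 : 2 * M ≤ n + 1) (hm : 1 ≤ m) (l : ℤ) :
    ∃ l' : ℤ, l' ≤ l ∧ G n m l = W m (2 * M) l - W m (2 * M) l' := by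
  rcases (by omega : 2 * M = n ∨ 2 * M = n + 1) with h | h
  · exact ⟨l - m, by omega, by rw [h]; rfl⟩
  · exact ⟨l - 1, by omega, by rw [h, G_eq]⟩

theorem main_le (n k M : ℕ) (h1 : n ≤ 2 * M) (h2 : 2 * M ≤ n + 1) (hk : 1 ≤ k) {j : ℤ}
    (hj : j ≤ ((M * (k - 1) : ℕ) : ℤ)) :
    W k (2 * M) j - W k (2 * M) (j - 1) ≤ G n k j := by
  rcases (by omega : 2 * M = n ∨ 2 * M = n + 1) with h | h
  · have := W_mono' k (2 * M) (x := j - k) (y := j - 1) (by omega) (by
      push_cast [Nat.cast_sub hk] at hj ⊢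
      linarith)
    unfold G
    rw [← h]
    linarith
  · rw [G_eq, h]

theorem geom_le (p : ℕ) : ∑ i ∈ range p, ((1 : ℝ) / 2) ^ (i + 1) ≤ 1 := by
  have : ∀ p : ℕ, ∑ i ∈ range p, ((1 : ℝ) / 2) ^ (i + 1) = 1 - (1 / 2) ^ p := by
    intro p
    induction p with
    | zero => simp
    | succ p ih => rw [sum_range_succ, ih, pow_succ]; ring
  rw [this]
  have : (0 : ℝ) ≤ (1 / 2) ^ p := by positivity
  linarith

theorem sum_nonneg' {k M n s : ℕ} (hk : 2 ≤ k) (hn : 400 * k * (Nat.log 2 n + 1) ≤ n)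
    (hE1 : n ≤ 2 * M) (hE2 : 2 * M ≤ n + 1) {j : ℤ} (hj1 : 1 ≤ j)
    (hjc : j ≤ ((M * (k - 1) : ℕ) : ℤ)) (hs : Nat.log 2 n + 2 ≤ s) (hjs : j ≤ k * ((s : ℤ) - 1)) :
    0 ≤ ∑ i ∈ range k, (-1 : ℤ) ^ i * (n.choose i : ℤ) * G n (k - i) (j - i * s) := by
  obtain ⟨p, rfl⟩ : ∃ p, k = p + 1 := ⟨k - 1, by omega⟩
  rw [sum_range_succ']
  set D : ℝ := ((W (p + 1) (2 * M) j : ℤ) : ℝ) - ((W (p + 1) (2 * M) (j - 1) : ℤ) : ℝ) with hD
  have hD0 : 0 ≤ D := by
    have := W_mono (p + 1) (2 * M) (x := j) (by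
      push_cast [Nat.cast_sub (by omega : 1 ≤ p + 1)] at hjc ⊢
      linarith)
    have h2 : ((W (p + 1) (2 * M) (j - 1) : ℤ) : ℝ) ≤ ((W (p + 1) (2 * M) j : ℤ) : ℝ) := by
      exact_mod_cast this
    rw [hD]; linarith
  have hmain : D ≤ (G n (p + 1) j : ℝ) := by
    have := main_le n (p + 1) M hE1 hE2 (by omega) hjc
    rw [hD]
    exact_mod_cast this
  have hterm : ∀ i ∈ range p, |(((-1 : ℤ) ^ (i + 1) * (n.choose (i + 1) : ℤ) *
      G n (p + 1 - (i + 1)) (j - ((i + 1 : ℕ) : ℤ) * s) : ℤ) : ℝ)| ≤ (1 / 2) ^ (i + 1) * D := by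
    intro i hi
    rw [mem_range] at hi
    obtain ⟨l', hl', hG⟩ := G_two n (p + 1 - (i + 1)) M hE1 hE2 (by omega)
      (j - ((i + 1 : ℕ) : ℤ) * s)
    have k1 := key hk hn hE1 hE2 hj1 hjc hs hjs (i := i + 1) (by omega) (by omega) le_rfl
    have k2 := key hk hn hE1 hE2 hj1 hjc hs hjs (i := i + 1) (by omega) (by omega) hl'
    rw [← hD] at k1 k2
    have c0 : (0 : ℝ) ≤ n.choose (i + 1) := by positivity
    have w1 : (0 : ℝ) ≤ W (p + 1 - (i + 1)) (2 * M) (j - ((i + 1 : ℕ) : ℤ) * s) := by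
      exact_mod_cast W_nonneg _ _ _
    have w2 : (0 : ℝ) ≤ W (p + 1 - (i + 1)) (2 * M) l' := by
      exact_mod_cast W_nonneg _ _ _
    rw [hG]
    push_cast at k1 k2 w1 w2 ⊢
    rw [mul_assoc, abs_mul, abs_pow, abs_neg, abs_one, one_pow, one_mul, abs_le]
    have m1 := mul_nonneg c0 w1
    have m2 := mul_nonneg c0 w2
    constructor <;> nlinarith
  have hsum : |∑ i ∈ range p, (((-1 : ℤ) ^ (i + 1) * (n.choose (i + 1) : ℤ) *
      G n (p + 1 - (i + 1)) (j - ((i + 1 : ℕ) : ℤ) * s) : ℤ) : ℝ)| ≤ D := by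
    refine (abs_sum_le_sum_abs _ _).trans ?_
    refine (sum_le_sum hterm).trans ?_
    rw [← sum_mul]
    have := geom_le p
    nlinarith
  have h1 := (abs_le.mp hsum).1
  have h2 : (0 : ℝ) ≤ ((∑ i ∈ range p, (-1 : ℤ) ^ (i + 1) * (n.choose (i + 1) : ℤ) *
      G n (p + 1 - (i + 1)) (j - ((i + 1 : ℕ) : ℤ) * s) + (-1 : ℤ) ^ 0 * (n.choose 0 : ℤ) *
      G n (p + 1 - 0) (j - ((0 : ℕ) : ℤ) * s) : ℤ) : ℝ) := by
    push_cast at h1 ⊢
    simp only [pow_zero, Nat.choose_zero_right, Nat.cast_one, one_mul, Nat.sub_zero, zero_mul,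
      sub_zero]
    linarith
  exact_mod_cast h2

variable {n k : ℕ} {L : ℕ → ℕ} {h : ℕ → ℤ}

theorem step_eq (hk : 0 < k) (hkn : k < n)
    (hL : ∀ t : ℕ, L t = ((univ : Finset (Fin n → Fin (t + 1))).filter
      (fun x => ∑ i, (x i : ℕ) = k * t)).card)
    (hh : ∀ i : ℕ, h i = ∑ j ∈ range (i + 1), (-1 : ℤ) ^ j * (n.choose j : ℤ) * (L (i - j) : ℤ))
    (d : ℕ) :
    h (d + 1) - h d = ∑ i ∈ range k, (-1 : ℤ) ^ i * (n.choose i : ℤ) *
      G n (k - i) ((k * (d + 1) : ℤ) - i * ((d + 2 : ℕ) : ℤ)) := by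
  rw [h_eq hk hkn hL hh, h_eq hk hkn hL hh, ← sum_sub_distrib]
  refine sum_congr rfl fun i hi => ?_
  rw [mem_range] at hi
  unfold G
  rw [show ((k - i : ℕ) : ℤ) = k - i by omega, ← mul_sub]
  congr 3
  · push_cast; ring
  · push_cast; ring

theorem up (hk : 2 ≤ k) (hkn : k < n) (hn : 400 * k * (Nat.log 2 n + 1) ≤ n) {M : ℕ} (hE1 : n ≤ 2 * M)
    (hE2 : 2 * M ≤ n + 1)
    (hL : ∀ t : ℕ, L t = ((univ : Finset (Fin n → Fin (t + 1))).filter
      (fun x => ∑ i, (x i : ℕ) = k * t)).card)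
    (hh : ∀ i : ℕ, h i = ∑ j ∈ range (i + 1), (-1 : ℤ) ^ j * (n.choose j : ℤ) * (L (i - j) : ℤ))
    {d : ℕ} (hd : Nat.log 2 n ≤ d) (hdc : k * (d + 1) ≤ M * (k - 1)) : h d ≤ h (d + 1) := by
  have := sum_nonneg' (s := d + 2) (j := (k : ℤ) * (d + 1)) hk hn hE1 hE2 (by
      have : (2 : ℤ) ≤ k := by exact_mod_cast hk
      have : (0 : ℤ) ≤ d := by positivity
      nlinarith) (by exact_mod_cast hdc) (by omega) (by push_cast; linarith)
  rw [← step_eq (by omega) hkn hL hh] at this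
  linarith

theorem down (hk : 2 ≤ k) (hkn : k < n) (hn : 400 * k * (Nat.log 2 n + 1) ≤ n) {M : ℕ} (hE1 : n ≤ 2 * M)
    (hE2 : 2 * M ≤ n + 1)
    (hL : ∀ t : ℕ, L t = ((univ : Finset (Fin n → Fin (t + 1))).filter
      (fun x => ∑ i, (x i : ℕ) = k * t)).card)
    (hh : ∀ i : ℕ, h i = ∑ j ∈ range (i + 1), (-1 : ℤ) ^ j * (n.choose j : ℤ) * (L (i - j) : ℤ))
    {d e : ℕ} (he : 1 ≤ e) (hde : d + 1 + e = n)
    (hdc : (k * (e + 1) : ℤ) - n ≤ ((M * (k - 1) : ℕ) : ℤ)) : h (d + 1) ≤ h d := by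
  set j : ℤ := (k * (e + 1) : ℤ) - n with hj
  have hne : (n : ℤ) = d + 1 + e := by exact_mod_cast hde.symm
  have key : h (d + 1) - h d = - ∑ i ∈ range k, (-1 : ℤ) ^ i * (n.choose i : ℤ) *
      G n (k - i) (j - i * e) := by
    rw [step_eq (by omega) hkn hL hh, ← sum_neg_distrib]
    refine sum_congr rfl fun i hi => ?_
    rw [mem_range] at hi
    rw [G_refl, show ((k - i : ℕ) : ℤ) = k - i by omega]
    have : ((n : ℤ) + 1) * ((k : ℤ) - i - 1) + 1 - ((k : ℤ) * (d + 1) - i * ((d + 2 : ℕ) : ℤ)) =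
        j - i * e := by
      rw [hj, hne]
      push_cast
      ring
    rw [this]
    ring
  have hkz : (2 : ℤ) ≤ k := by exact_mod_cast hk
  set u : ℕ := Nat.log 2 n with hu
  suffices 0 ≤ ∑ i ∈ range k, (-1 : ℤ) ^ i * (n.choose i : ℤ) * G n (k - i) (j - i * e) by
    linarith
  by_cases hj0 : 1 ≤ j
  · have hnz : 400 * (k : ℤ) * (u + 1) ≤ n := by exact_mod_cast hn
    have hu0 : (0 : ℤ) ≤ u := by positivity
    have h4kz : 4 * (k : ℤ) ≤ n := by nlinarith
    have he3 : u + 2 ≤ e := by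
      by_contra hcon
      push Not at hcon
      have : (e : ℤ) ≤ u + 1 := by omega
      nlinarith
    exact sum_nonneg' hk hn hE1 hE2 hj0 hdc he3 (by rw [hj]; nlinarith)
  · push Not at hj0
    obtain ⟨p, rfl⟩ : ∃ p, k = p + 1 := ⟨k - 1, by omega⟩
    rw [sum_range_succ']
    have hz : ∀ i ∈ range p, (-1 : ℤ) ^ (i + 1) * (n.choose (i + 1) : ℤ) *
        G n (p + 1 - (i + 1)) (j - ((i + 1 : ℕ) : ℤ) * e) = 0 := by
      intro i _
      have h1 : j - ((i + 1 : ℕ) : ℤ) * e < 0 := by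
        have : (1 : ℤ) ≤ e := by exact_mod_cast he
        have : (0 : ℤ) ≤ i := by positivity
        push_cast
        nlinarith
      rw [G_eq, W_neg _ _ h1, W_neg _ _ (by omega)]
      ring
    rw [sum_eq_zero hz, zero_add, G_eq, W_neg _ _ (show j - ((0 : ℕ) : ℤ) * e - 1 < 0 by
      push_cast; linarith)]
    have := W_nonneg (p + 1 - 0) (n + 1) (j - ((0 : ℕ) : ℤ) * e)
    simp only [pow_zero, Nat.choose_zero_right, Nat.cast_one, one_mul, sub_zero]
    exact this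

theorem log_sq {n : ℕ} (hn : 800 * (Nat.log 2 n + 1) ≤ n) :
    (2 * Nat.log 2 n) ^ 2 * (2 * (n + 1)) ≤ n ^ 2 := by
  have hn0 : n ≠ 0 := by omega
  have h9 : 9 ≤ Nat.log 2 n := by
    apply (Nat.le_log_iff_pow_le (by norm_num) hn0).mpr
    norm_num
    omega
  have h12 : 12 ≤ Nat.log 2 n := by
    apply (Nat.le_log_iff_pow_le (by norm_num) hn0).mpr
    norm_num
    omega
  have hp : 2 ^ Nat.log 2 n ≤ n := Nat.pow_log_le_self 2 hn0
  have key : ∀ u : ℕ, 12 ≤ u → 16 * u ^ 2 ≤ 2 ^ u := by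
    intro u hu
    induction u, hu using Nat.le_induction with
    | base => norm_num
    | succ u hu ih =>
      have e : 2 ^ (u + 1) = 2 * 2 ^ u := by ring
      rw [e]
      nlinarith
  have h16 := (key _ h12).trans hp
  set u := Nat.log 2 n
  calc (2 * u) ^ 2 * (2 * (n + 1)) = 8 * u ^ 2 * (n + 1) := by ring
    _ ≤ 8 * u ^ 2 * (2 * n) := Nat.mul_le_mul_left _ (by omega)
    _ = (16 * u ^ 2) * n := by ring
    _ ≤ n * n := Nat.mul_le_mul_right n h16
    _ = n ^ 2 := by ring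

theorem unimodal_aux (hk : 0 < k) (hkn : k < n) (hn : 400 * k * (Nat.log 2 n + 1) ≤ n)
    (hL : ∀ t : ℕ, L t = ((univ : Finset (Fin n → Fin (t + 1))).filter
      (fun x => ∑ i, (x i : ℕ) = k * t)).card)
    (hh : ∀ i : ℕ, h i = ∑ j ∈ range (i + 1), (-1 : ℤ) ^ j * (n.choose j : ℤ) * (L (i - j) : ℤ)) :
    ∃ m : ℕ, m ≤ n - 1 ∧
      (∀ i j : ℕ, i ≤ j → j ≤ m → h i ≤ h j) ∧
      (∀ i j : ℕ, m ≤ i → i ≤ j → j ≤ n - 1 → h j ≤ h i) := by
  by_cases hk1 : k = 1
  · subst hk1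
    have hval : ∀ d : ℕ, h d = if d = 0 then 1 else 0 := by
      intro d
      rw [h_eq hk hkn hL hh]
      simp only [range_one, sum_singleton, pow_zero, Nat.choose_zero_right, Nat.cast_one, one_mul,
        Nat.cast_zero, sub_zero]
      rw [W_one]
      by_cases hd : d = 0
      · subst hd; simp
      · rw [if_neg hd, if_neg (by exact_mod_cast hd)]
    refine ⟨0, Nat.zero_le _, ?_, ?_⟩
    · intro i j hij hj
      have : i = j := by omega
      rw [this]
    · intro i j _ hij _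
      rw [hval, hval]
      split_ifs <;> omega
  · have hk2 : 2 ≤ k := by omega
    have hn8 : 800 * (Nat.log 2 n + 1) ≤ n := by
      refine le_trans (Nat.mul_le_mul_right _ ?_) hn
      omega
    have hsq := log_sq hn8
    have hkT : 3 * k * Nat.log 2 n ≤ n := by
      refine le_trans ?_ hn
      exact Nat.mul_le_mul (Nat.mul_le_mul_right k (by norm_num)) (by omega)
    obtain ⟨M, hE1, hE2⟩ : ∃ M : ℕ, n ≤ 2 * M ∧ 2 * M ≤ n + 1 := ⟨(n + 1) / 2, by omega, by omega⟩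
    set P : ℕ := M * (k - 1) / k with hP
    have hPle : k * P ≤ M * (k - 1) := Nat.mul_div_le _ _
    have hPlt : M * (k - 1) < k * (P + 1) := by
      have := Nat.lt_mul_div_succ (M * (k - 1)) (by omega : 0 < k)
      rwa [← hP] at this
    have hPM : P ≤ M := by
      have h1 : k * P ≤ k * M := by
        refine hPle.trans ?_
        rw [Nat.mul_comm k M]
        exact Nat.mul_le_mul_left M (by omega)
      exact Nat.le_of_mul_le_mul_left h1 (by omega)
    have hup : ∀ d : ℕ, d + 1 ≤ P → h d ≤ h (d + 1) := by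
      intro d hd
      rcases Nat.lt_or_ge d (Nat.log 2 n) with hd0 | hd0
      · exact small_up hsq hk2 hkT hL hh hd0
      · exact up hk2 hkn hn hE1 hE2 hL hh hd0 ((Nat.mul_le_mul_left k hd).trans hPle)
    have hdown : ∀ d : ℕ, P + 1 ≤ d → d + 1 ≤ n - 1 → h (d + 1) ≤ h d := by
      intro d hd hdn
      obtain ⟨e, he⟩ : ∃ e, d + 1 + e = n := ⟨n - (d + 1), by omega⟩
      refine down hk2 hkn hn hE1 hE2 hL hh (by omega) he ?_
      have h1 : M * (k - 1) < k * d := hPlt.trans_le (Nat.mul_le_mul_left k hd)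
      have h2 : ((M * (k - 1) : ℕ) : ℤ) < k * d := by exact_mod_cast h1
      have h3 : ((M * (k - 1) : ℕ) : ℤ) = M * (k - 1) := by
        push_cast [Nat.cast_sub (by omega : 1 ≤ k)]; ring
      rw [h3] at h2 ⊢
      have h4 : (n : ℤ) = d + 1 + e := by exact_mod_cast he.symm
      have h5 : (n : ℤ) ≤ 2 * M := by exact_mod_cast hE1
      have h6 : (2 : ℤ) ≤ k := by exact_mod_cast hk2
      have h7 : (k : ℤ) * (e + 1) = k * n - k * d := by rw [h4]; ring
      rw [h7]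
      nlinarith
    have mono : ∀ m : ℕ, (∀ d, d + 1 ≤ m → h d ≤ h (d + 1)) →
        ∀ i j : ℕ, i ≤ j → j ≤ m → h i ≤ h j := by
      intro m hm i j hij
      induction j, hij using Nat.le_induction with
      | base => intro _; exact le_rfl
      | succ j _ ih => intro hj; exact (ih (by omega)).trans (hm j hj)
    have anti : ∀ m : ℕ, (∀ d, m ≤ d → d + 1 ≤ n - 1 → h (d + 1) ≤ h d) →
        ∀ i j : ℕ, m ≤ i → i ≤ j → j ≤ n - 1 → h j ≤ h i := by
      intro m hm i j hi hij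
      induction j, hij using Nat.le_induction with
      | base => intro _; exact le_rfl
      | succ j hj ih => intro hj'; exact (hm j (by omega) hj').trans (ih (by omega))
    by_cases hc : h P ≤ h (P + 1)
    · refine ⟨P + 1, by omega, mono (P + 1) ?_, anti (P + 1) hdown⟩
      intro d hd
      rcases Nat.lt_or_ge d P with h1 | h1
      · exact hup d h1
      · have : d = P := by omega
        rw [this]; exact hc
    · push Not at hc
      refine ⟨P, by omega, mono P hup, anti P ?_⟩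
      intro d hd hdn
      rcases Nat.lt_or_ge P d with h1 | h1
      · exact hdown d h1 hdn
      · have : d = P := by omega
        rw [this]; exact hc.le

theorem compl (hkn : k < n)
    (hL : ∀ t : ℕ, L t = ((univ : Finset (Fin n → Fin (t + 1))).filter
      (fun x => ∑ i, (x i : ℕ) = k * t)).card) (t : ℕ) :
    L t = ((univ : Finset (Fin n → Fin (t + 1))).filter
      (fun x => ∑ i, (x i : ℕ) = (n - k) * t)).card := by
  rw [hL]
  refine card_bij (fun x _ => fun i => Fin.rev (x i)) ?_ ?_ ?_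
  · intro x hx
    simp only [mem_filter, mem_univ, true_and] at hx ⊢
    have h1 : ∑ i, ((Fin.rev (x i) : ℕ) + (x i : ℕ)) = n * t := by
      have : ∀ i, (Fin.rev (x i) : ℕ) + (x i : ℕ) = t := by
        intro i
        have := (x i).isLt
        rw [Fin.val_rev]
        omega
      rw [sum_congr rfl fun i _ => this i]
      simp
    rw [sum_add_distrib, hx] at h1
    rw [Nat.sub_mul]
    omega
  · intro x _ y _ hxy
    funext i
    have := congrFun hxy i
    exact Fin.rev_injective this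
  · intro y hy
    refine ⟨fun i => Fin.rev (y i), ?_, by funext i; simp⟩
    simp only [mem_filter, mem_univ, true_and] at hy ⊢
    have h1 : ∑ i, ((Fin.rev (y i) : ℕ) + (y i : ℕ)) = n * t := by
      have : ∀ i, (Fin.rev (y i) : ℕ) + (y i : ℕ) = t := by
        intro i
        have := (y i).isLt
        rw [Fin.val_rev]
        omega
      rw [sum_congr rfl fun i _ => this i]
      simp
    rw [sum_add_distrib, hy, Nat.sub_mul] at h1
    have h2 : k * t ≤ n * t := Nat.mul_le_mul_right t hkn.le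
    omega

theorem unimodal (hk : 0 < k) (hkn : k < n)
    (hn : 400 * min k (n - k) * (Nat.log 2 n + 1) ≤ n)
    (hL : ∀ t : ℕ, L t = ((univ : Finset (Fin n → Fin (t + 1))).filter
      (fun x => ∑ i, (x i : ℕ) = k * t)).card)
    (hh : ∀ i : ℕ, h i = ∑ j ∈ range (i + 1), (-1 : ℤ) ^ j * (n.choose j : ℤ) * (L (i - j) : ℤ)) :
    ∃ m : ℕ, m ≤ n - 1 ∧
      (∀ i j : ℕ, i ≤ j → j ≤ m → h i ≤ h j) ∧
      (∀ i j : ℕ, m ≤ i → i ≤ j → j ≤ n - 1 → h j ≤ h i) := by
  rcases le_total k (n - k) with h1 | h1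
  · rw [min_eq_left h1] at hn
    exact unimodal_aux hk hkn hn hL hh
  · rw [min_eq_right h1] at hn
    exact unimodal_aux (by omega) (by omega) hn (compl hkn hL) hh

end Pool.Agent.W2helper31.HS
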