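import Pool.Agent.W2helper31.HS.W

/-!
# Monotonicity and ratios of the coefficients of powers of `1 + y + ... + y ^ (m - 1)`
-/

set_option autoImplicit false

namespace Pool.Agent.W2helper31.HS

open Finset

theorem sum_Icc_nat (N : ℕ) (f : ℤ → ℤ) :
    ∑ l ∈ Icc (0 : ℤ) (N : ℤ), f l = ∑ i ∈ range (N + 1), f (i : ℤ) := by
  symm
  refine sum_bij (fun i _ => (i : ℤ)) ?_ ?_ ?_ ?_
  · intro i hi
    rw [mem_range] at hi
    rw [mem_Icc]
    omega
  · intro a _ b _ h
    exact_mod_cast h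
  · intro b hb
    rw [mem_Icc] at hb
    obtain ⟨u, hu⟩ := Int.eq_ofNat_of_zero_le hb.1
    exact ⟨u, by rw [mem_range]; omega, by omega⟩
  · intro i _
    rfl

/-- Left of the centre the coefficients increase. -/
theorem W_mono (m n : ℕ) {x : ℤ} (hx : 2 * x ≤ n * (m - 1)) : W m n (x - 1) ≤ W m n x := by
  have h := W_lcs m n 1 (x - 1) (n * (m - 1) - (x - 1)) (by push_cast; linarith)
  rw [W_symm] at h
  have e : (n : ℤ) * (m - 1) - (x - 1) - ((1 : ℕ) : ℤ) = n * (m - 1) - x := by push_cast; ring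
  rw [e, W_symm] at h
  have e2 : x - 1 + ((1 : ℕ) : ℤ) = x := by push_cast; ring
  rw [e2] at h
  have h0 := W_nonneg m n x
  have h1 := W_nonneg m n (x - 1)
  by_contra hc
  push Not at hc
  nlinarith

theorem W_mono' (m n : ℕ) {x y : ℤ} (hxy : x ≤ y) (hy : 2 * y ≤ n * (m - 1)) :
    W m n x ≤ W m n y := by
  obtain ⟨u, hu⟩ := Int.eq_ofNat_of_zero_le (show 0 ≤ y - x by omega)
  have : ∀ v : ℕ, W m n (y - v) ≤ W m n y := by
    intro v
    induction v with
    | zero => simp
    | succ v ih =>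
      refine le_trans ?_ ih
      have := W_mono m n (x := y - v) (by omega)
      rw [show y - (v : ℤ) - 1 = y - ((v + 1 : ℕ) : ℤ) by push_cast; ring] at this
      exact this
  have h2 := this u
  rwa [show y - (u : ℤ) = x by omega] at h2

/-- The central coefficient of an even power is the largest. -/
theorem W_le_center (m M : ℕ) (x : ℤ) : W m (2 * M) x ≤ W m (2 * M) (M * (m - 1)) := by
  by_cases h : x ≤ M * (m - 1)
  · refine W_mono' m (2 * M) h ?_
    push_cast
    linarith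
  · rw [← W_symm m (2 * M) x]
    refine W_mono' m (2 * M) ?_ ?_
    · push_cast; linarith
    · push_cast; linarith

theorem squares {m : ℕ} (hm : 1 ≤ m) (M c : ℕ) (hc : c = M * (m - 1)) :
    ∑ i ∈ range (c + 2), (W m M (i : ℤ) - W m M ((i : ℤ) - 1)) ^ 2 =
      2 * (W m (2 * M) c - W m (2 * M) (c - 1)) := by
  have hcz : (c : ℤ) = M * (m - 1) := by
    rw [hc]; push_cast [Nat.cast_sub hm]; ring
  have e1 : W m (2 * M) c = ∑ i ∈ range (c + 1), W m M i * W m M i := by
    rw [show 2 * M = M + M by ring, W_conv hm, ← hc, sum_Icc_nat]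
    refine sum_congr rfl fun i _ => ?_
    congr 1
    rw [hcz, W_symm]
  have e2 : W m (2 * M) (c - 1) = ∑ i ∈ range (c + 1), W m M i * W m M (i + 1) := by
    rw [show 2 * M = M + M by ring, W_conv hm, ← hc, sum_Icc_nat]
    refine sum_congr rfl fun i _ => ?_
    congr 1
    rw [hcz, show (M : ℤ) * (m - 1) - 1 - i = M * (m - 1) - (i + 1) by ring, W_symm]
  have e3 : ∑ i ∈ range (c + 2), (W m M (i : ℤ) - W m M ((i : ℤ) - 1)) ^ 2 =
      ∑ i ∈ range (c + 2), W m M i * W m M i +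
      ∑ i ∈ range (c + 2), W m M ((i : ℤ) - 1) * W m M ((i : ℤ) - 1) -
      2 * ∑ i ∈ range (c + 2), W m M ((i : ℤ) - 1) * W m M i := by
    rw [mul_sum, ← sum_add_distrib, ← sum_sub_distrib]
    refine sum_congr rfl fun i _ => ?_
    ring
  have z1 : W m M ((c + 1 : ℕ) : ℤ) = 0 := by
    apply W_big
    push_cast
    omega
  have z2 : W m M (((0 : ℕ) : ℤ) - 1) = 0 := W_neg m M (by norm_num)
  rw [e3, sum_range_succ, sum_range_succ' (fun i : ℕ => W m M ((i : ℤ) - 1) * W m M ((i : ℤ) - 1)),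
    sum_range_succ' (fun i : ℕ => W m M ((i : ℤ) - 1) * W m M i), z1, z2, e1, e2]
  have e4 : ∀ i : ℕ, ((i + 1 : ℕ) : ℤ) - 1 = i := by intro i; push_cast; ring
  simp only [e4]
  push_cast
  ring

/-- The drop at the centre of an even power. -/
theorem center_drop {m : ℕ} (hm : 1 ≤ m) (M c : ℕ) (hc : c = M * (m - 1)) :
    (m : ℝ) ^ (2 * M) ≤ 2 * ((c : ℝ) + 1) ^ 2 * (c + 2) *
      ((W m (2 * M) c : ℝ) - W m (2 * M) (c - 1)) := by
  set T : ℝ := ∑ i ∈ range (c + 2), ((W m M (i : ℤ) : ℝ) - W m M ((i : ℤ) - 1)) ^ 2 with hT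
  have hT2 : T = 2 * ((W m (2 * M) c : ℝ) - W m (2 * M) (c - 1)) := by
    have := congrArg (fun z : ℤ => (z : ℝ)) (squares hm M c hc)
    push_cast at this
    rw [hT, this]
  have hb : ∀ x ∈ range (c + 1), ((W m M (x : ℤ) : ℝ)) ^ 2 ≤ (c + 2) * T := by
    intro x hx
    have hx' : x < c + 1 := mem_range.mp hx
    have h1 : (W m M (x : ℤ) : ℝ) =
        ∑ i ∈ range (x + 1), ((W m M (i : ℤ) : ℝ) - W m M ((i : ℤ) - 1)) := by
      have := sum_range_sub (fun i : ℕ => (W m M ((i : ℤ) - 1) : ℝ)) (x + 1)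
      have e4 : ∀ i : ℕ, ((i + 1 : ℕ) : ℤ) - 1 = i := by intro i; push_cast; ring
      simp only [e4] at this
      rw [this]
      have z2 : W m M (((0 : ℕ) : ℤ) - 1) = 0 := W_neg m M (by norm_num)
      rw [z2]
      simp
    rw [h1]
    have h2 := sq_sum_le_card_mul_sum_sq (s := range (x + 1))
      (f := fun i : ℕ => ((W m M (i : ℤ) : ℝ) - W m M ((i : ℤ) - 1)))
    rw [card_range] at h2
    refine h2.trans ?_
    have h3 : ∑ i ∈ range (x + 1), ((W m M (i : ℤ) : ℝ) - W m M ((i : ℤ) - 1)) ^ 2 ≤ T := by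
      rw [hT]
      apply sum_le_sum_of_subset_of_nonneg
      · intro i hi
        rw [mem_range] at hi ⊢
        omega
      · intro i _ _
        positivity
    have h4 : ((x + 1 : ℕ) : ℝ) ≤ c + 2 := by
      exact_mod_cast (by omega : x + 1 ≤ c + 2)
    have h5 : 0 ≤ ∑ i ∈ range (x + 1), ((W m M (i : ℤ) : ℝ) - W m M ((i : ℤ) - 1)) ^ 2 :=
      sum_nonneg fun i _ => by positivity
    exact mul_le_mul h4 h3 h5 (by positivity)
  have hsum : ∑ x ∈ range (c + 1), (W m M (x : ℤ) : ℝ) = (m : ℝ) ^ M := by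
    have := W_gen hm M (r := 1) one_ne_zero
    simp only [one_zpow, mul_one, one_pow, sum_const, card_range, nsmul_eq_mul] at this
    rw [← hc] at this
    have h2 := sum_Icc_nat c (W m M)
    have h3 := congrArg (fun z : ℤ => (z : ℝ)) h2
    push_cast at h3
    rw [← h3, this]
  have h6 := sq_sum_le_card_mul_sum_sq (s := range (c + 1)) (f := fun x : ℕ => (W m M (x : ℤ) : ℝ))
  rw [hsum, card_range] at h6
  have h7 : ∑ x ∈ range (c + 1), ((W m M (x : ℤ) : ℝ)) ^ 2 ≤ (c + 1) * ((c + 2) * T) := by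
    refine (sum_le_sum hb).trans ?_
    rw [sum_const, card_range, nsmul_eq_mul]
    push_cast
    exact le_rfl
  have h8 : (m : ℝ) ^ (2 * M) = ((m : ℝ) ^ M) ^ 2 := by rw [← pow_mul]; ring_nf
  rw [h8]
  refine h6.trans ?_
  push_cast
  calc ((c : ℝ) + 1) * ∑ x ∈ range (c + 1), ((W m M (x : ℤ) : ℝ)) ^ 2
      ≤ (c + 1) * ((c + 1) * ((c + 2) * T)) := by
        apply mul_le_mul_of_nonneg_left h7 (by positivity)
    _ = _ := by rw [hT2]; ring

/-- The drop at any place left of the centre of an even power. -/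
theorem drop {m : ℕ} (hm : 1 ≤ m) (M c : ℕ) (hc : c = M * (m - 1)) {j : ℤ} (hj : j ≤ c) :
    (W m (2 * M) j : ℝ) ≤ 2 * ((c : ℝ) + 1) ^ 2 * (c + 2) *
      ((W m (2 * M) j : ℝ) - W m (2 * M) (j - 1)) := by
  have hcz : (c : ℤ) = M * (m - 1) := by
    rw [hc]; push_cast [Nat.cast_sub hm]; ring
  have h1 := center_drop hm M c hc
  have h2 : (W m (2 * M) c : ℝ) ≤ (m : ℝ) ^ (2 * M) := by
    have := W_le m (2 * M) (r := 1) one_pos c
    simpa using this
  have h3 : (W m (2 * M) (j - 1) : ℝ) * W m (2 * M) c ≤ W m (2 * M) j * W m (2 * M) (c - 1) := by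
    have := W_lcs m (2 * M) 1 (j - 1) c (by push_cast; omega)
    rw [show j - 1 + ((1 : ℕ) : ℤ) = j by push_cast; ring,
      show (c : ℤ) - ((1 : ℕ) : ℤ) = c - 1 by push_cast; ring] at this
    exact_mod_cast this
  have h4 : (0 : ℝ) < W m (2 * M) c := by
    have : 0 < W m (2 * M) c := by
      apply W_pos hm
      · positivity
      · push_cast
        have : (0 : ℤ) ≤ c := by positivity
        linarith
    exact_mod_cast this
  have h5 : (0 : ℝ) ≤ W m (2 * M) j := by exact_mod_cast W_nonneg _ _ _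
  set K : ℝ := 2 * ((c : ℝ) + 1) ^ 2 * (c + 2) with hK
  have hK0 : 0 < K := by positivity
  have h6 : (W m (2 * M) j : ℝ) * W m (2 * M) c ≤
      (K * ((W m (2 * M) j : ℝ) - W m (2 * M) (j - 1))) * W m (2 * M) c := by
    have h7 : (W m (2 * M) c : ℝ) ≤ K * ((W m (2 * M) c : ℝ) - W m (2 * M) (c - 1)) :=
      h2.trans h1
    have h8 := mul_le_mul_of_nonneg_left h7 h5
    have h9 := mul_le_mul_of_nonneg_left h3 hK0.le
    linarith
  exact le_of_mul_le_mul_right h6 h4

/-- Small places: the ratio of consecutive coefficients. -/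
theorem ratio_small {m E : ℕ} (hm : 2 ≤ m) {j : ℤ} (hj : 2 * j ≤ E) :
    (E : ℤ) * W m E (j - 1) ≤ 2 * j * W m E j := by
  rcases E with _ | n
  · push_cast at hj ⊢
    have : W m 0 (j - 1) = 0 := by rw [W_zero, if_neg (by omega)]
    by_cases h : j = 0
    · subst h; simp
    · rw [W_zero, W_zero, if_neg h]; simp
  · have h1 := W_moment m n j
    have h2 := W_moment m n (j - 1)
    obtain ⟨p, rfl⟩ : ∃ p, m = p + 1 := ⟨m - 1, by omega⟩
    set S : ℤ := ∑ t ∈ range p, W (p + 1) n (j - 1 - t) with hS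
    have hp : (1 : ℤ) ≤ p := by exact_mod_cast (by omega : 1 ≤ p)
    have h3 : S ≤ ∑ t ∈ range (p + 1), (t : ℤ) * W (p + 1) n (j - t) := by
      rw [sum_range_succ', hS]
      simp only [Nat.cast_zero, zero_mul, add_zero]
      refine sum_le_sum fun t _ => ?_
      have := W_nonneg (p + 1) n (j - 1 - t)
      rw [show j - ((t + 1 : ℕ) : ℤ) = j - 1 - t by push_cast; ring]
      push_cast
      nlinarith [(by positivity : (0 : ℤ) ≤ (t : ℤ))]
    have h4 : (p : ℤ) * W (p + 1) (n + 1) (j - 1) -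
        ∑ t ∈ range (p + 1), (t : ℤ) * W (p + 1) n (j - 1 - t) ≤ p * S := by
      rw [W_succ, mul_sum, ← sum_sub_distrib, sum_range_succ, hS, mul_sum]
      have : (p : ℤ) * W (p + 1) n (j - 1 - (p : ℤ)) - p * W (p + 1) n (j - 1 - (p : ℤ)) = 0 := by
        ring
      rw [this, add_zero]
      refine sum_le_sum fun t _ => ?_
      have := W_nonneg (p + 1) n (j - 1 - t)
      nlinarith [(by positivity : (0 : ℤ) ≤ (t : ℤ))]
    have hE : (0 : ℤ) < (n : ℤ) + 1 := by positivity
    have h5 : (((n : ℤ) + 1) * p - (j - 1)) * W (p + 1) (n + 1) (j - 1) ≤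
        p * (j * W (p + 1) (n + 1) j) := by
      calc (((n : ℤ) + 1) * p - (j - 1)) * W (p + 1) (n + 1) (j - 1)
          = (n + 1) * (p * W (p + 1) (n + 1) (j - 1) -
            ∑ t ∈ range (p + 1), (t : ℤ) * W (p + 1) n (j - 1 - t)) := by
            rw [mul_sub, ← h2]; ring
        _ ≤ (n + 1) * (p * S) := mul_le_mul_of_nonneg_left h4 hE.le
        _ ≤ (n + 1) * (p * ∑ t ∈ range (p + 1), (t : ℤ) * W (p + 1) n (j - t)) := by
            apply mul_le_mul_of_nonneg_left _ hE.le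
            exact mul_le_mul_of_nonneg_left h3 (by positivity)
        _ = p * (j * W (p + 1) (n + 1) j) := by rw [h1]; ring
    have h6 := W_nonneg (p + 1) (n + 1) (j - 1)
    push_cast at hj ⊢
    have h7 : ((n : ℤ) + 1) * p ≤ 2 * (((n : ℤ) + 1) * p - (j - 1)) := by nlinarith
    have h8 : (p : ℤ) * (((n : ℤ) + 1) * W (p + 1) (n + 1) (j - 1)) ≤
        p * (2 * j * W (p + 1) (n + 1) j) := by nlinarith
    exact le_of_mul_le_mul_left h8 (by linarith)

theorem mean_aux (w : ℕ → ℝ) (w0 : ℝ) (hn : ∀ t, 0 ≤ w t) (hw : ∀ t, w t ≤ w0)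
    (m : ℕ) :
    (∑ t ∈ range m, w t) * ((∑ t ∈ range m, w t) - w0) ≤
      2 * w0 * ∑ t ∈ range m, (t : ℝ) * w t := by
  induction m with
  | zero => simp
  | succ m ih =>
    rw [sum_range_succ, sum_range_succ]
    have h1 : ∑ t ∈ range m, w t ≤ m * w0 := by
      have := sum_le_sum (s := range m) fun t _ => hw t
      simpa using this
    have h2 := hn m
    have h3 := hw m
    nlinarith [mul_nonneg h2 (sub_nonneg.mpr h1), mul_nonneg h2 (sub_nonneg.mpr h3)]

/-- Medium places. -/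
theorem drop_medium {m E : ℕ} (hm : 2 ≤ m) (hE : 2 ≤ E) {j : ℤ} (hj0 : 0 ≤ j)
    (hj : 4 * j ≤ E * (m - 1)) :
    (E : ℝ) * W m E j ≤ 2 * (2 * j + E) * ((W m E j : ℝ) - W m E (j - 1)) := by
  obtain ⟨n, rfl⟩ : ∃ n, E = n + 1 := ⟨E - 1, by omega⟩
  have hn : 1 ≤ n := by omega
  push_cast at hj
  have hmz : (2 : ℤ) ≤ m := by exact_mod_cast hm
  have hnz : (1 : ℤ) ≤ n := by exact_mod_cast hn
  have hc : 2 * j ≤ n * (m - 1) := by nlinarith
  have hmom := W_moment m n j
  have hstep := W_step m n j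
  set w : ℕ → ℝ := fun t => (W m n (j - t) : ℝ) with hw
  have hw0 : ∀ t, 0 ≤ w t := fun t => by
    simp only [hw]
    exact_mod_cast W_nonneg m n (j - t)
  have hwle : ∀ t, w t ≤ w 0 := fun t => by
    have := W_mono' m n (x := j - t) (y := j) (by omega) hc
    simp only [hw]
    push_cast
    rw [sub_zero]
    exact_mod_cast this
  have hwm : ∀ t ∈ range m, w m ≤ w t := fun t ht => by
    have ht' : t < m := mem_range.mp ht
    have := W_mono' m n (x := j - m) (y := j - t) (by omega) (by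
      have : (0 : ℤ) ≤ t := by positivity
      linarith)
    simp only [hw]
    exact_mod_cast this
  set S : ℝ := ∑ t ∈ range m, w t with hS
  set A : ℝ := ∑ t ∈ range m, (t : ℝ) * w t with hA
  have eS : (W m (n + 1) j : ℝ) = S := by
    rw [W_succ]; push_cast; rfl
  have eD : (W m (n + 1) j : ℝ) - W m (n + 1) (j - 1) = w 0 - w m := by
    have := congrArg (fun z : ℤ => (z : ℝ)) hstep
    push_cast at this
    rw [this]
    simp [hw]
  have eM : (j : ℝ) * S = (n + 1) * A := by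
    have := congrArg (fun z : ℤ => (z : ℝ)) hmom
    push_cast at this
    rw [← eS, this]
  have hj0' : (0 : ℝ) ≤ j := by exact_mod_cast hj0
  have hnr : (1 : ℝ) ≤ n := by exact_mod_cast hn
  have hmr : (2 : ℝ) ≤ m := by exact_mod_cast hm
  have hjr : 4 * (j : ℝ) ≤ (n + 1) * (m - 1) := by exact_mod_cast hj
  have h0 := hw0 0
  have hSpos : 0 < S := by
    rw [← eS]
    have : 0 < W m (n + 1) j := by
      apply W_pos (by omega) _ hj0
      push_cast
      nlinarith
    exact_mod_cast this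
  -- (a)
  have ha : (n + 1) * S ≤ w 0 * (2 * j + (n + 1)) := by
    have h1 := mean_aux w (w 0) hw0 hwle m
    rw [← hS, ← hA] at h1
    have h2 : S * ((n + 1) * (S - w 0)) ≤ S * (2 * w 0 * j) := by
      have : (n + 1) * (S * (S - w 0)) ≤ (n + 1) * (2 * w 0 * A) :=
        mul_le_mul_of_nonneg_left h1 (by positivity)
      nlinarith [eM]
    have h3 := le_of_mul_le_mul_left h2 hSpos
    linarith
  -- (b)
  have hb : 2 * w m ≤ w 0 := by
    have h1 : w m * (m * (m - 1) / 2) ≤ A := by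
      have e : ∀ k : ℕ, ∑ t ∈ range k, (t : ℝ) = k * (k - 1) / 2 := by
        intro k
        induction k with
        | zero => simp
        | succ k ih => rw [sum_range_succ, ih]; push_cast; ring
      rw [← e m, mul_sum, hA]
      refine sum_le_sum fun t ht => ?_
      rw [mul_comm]
      exact mul_le_mul_of_nonneg_left (hwm t ht) (by positivity)
    have h2 : S ≤ m * w 0 := by
      have := sum_le_sum (s := range m) fun t _ => hwle t
      rw [hS]
      simpa using this
    have h3 : (n + 1) * (w m * (m * (m - 1) / 2)) ≤ j * (m * w 0) := by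
      calc (n + 1) * (w m * (m * (m - 1) / 2)) ≤ (n + 1) * A :=
            mul_le_mul_of_nonneg_left h1 (by positivity)
        _ = j * S := eM.symm
        _ ≤ j * (m * w 0) := mul_le_mul_of_nonneg_left h2 hj0'
    have h4 : 4 * (j * (m * w 0)) ≤ (n + 1) * (m - 1) * (m * w 0) := by
      have : 0 ≤ m * w 0 := by positivity
      nlinarith
    have h5 : ((n + 1) * (m - 1) * m) * (2 * w m) ≤ ((n + 1) * (m - 1) * m) * w 0 := by
      nlinarith
    have h6 : 0 < ((n : ℝ) + 1) * (m - 1) * m := by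
      have : (0 : ℝ) < m - 1 := by linarith
      positivity
    exact le_of_mul_le_mul_left h5 h6
  rw [eS] at *
  rw [eD]
  push_cast
  have h7 : w 0 / 2 ≤ w 0 - w m := by linarith
  have h8 : 0 ≤ 2 * (j : ℝ) + (n + 1) := by positivity
  nlinarith

end Pool.Agent.W2helper31.HS
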