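import Mathlib

/-!
# Coefficients of powers of `1 + y + ... + y ^ (m - 1)`
-/

set_option autoImplicit false

namespace Pool.Agent.W2helper31.HS

open Finset

/-- The coefficient of `y ^ x` in `(1 + y + ... + y ^ (m - 1)) ^ n`. -/
def W (m : ℕ) : ℕ → ℤ → ℤ
  | 0, x => if x = 0 then 1 else 0
  | (n + 1), x => ∑ t ∈ range m, W m n (x - t)

theorem W_zero (m : ℕ) (x : ℤ) : W m 0 x = if x = 0 then 1 else 0 := rfl

theorem W_succ (m n : ℕ) (x : ℤ) : W m (n + 1) x = ∑ t ∈ range m, W m n (x - t) := rfl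

theorem W_nonneg (m n : ℕ) (x : ℤ) : 0 ≤ W m n x := by
  induction n generalizing x with
  | zero => rw [W_zero]; split_ifs <;> norm_num
  | succ n ih => rw [W_succ]; exact sum_nonneg fun t _ => ih _

theorem W_neg (m n : ℕ) {x : ℤ} (hx : x < 0) : W m n x = 0 := by
  induction n generalizing x with
  | zero => rw [W_zero, if_neg (by omega)]
  | succ n ih => rw [W_succ]; exact sum_eq_zero fun t _ => ih (by omega)

theorem W_big (m n : ℕ) {x : ℤ} (hx : (n : ℤ) * (m - 1) < x) : W m n x = 0 := by
  induction n generalizing x with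
  | zero => rw [W_zero, if_neg (by simp at hx; omega)]
  | succ n ih =>
    rw [W_succ]
    refine sum_eq_zero fun t ht => ih ?_
    have h1 : t < m := mem_range.mp ht
    push_cast at hx
    have h2 : (t : ℤ) ≤ m - 1 := by omega
    nlinarith

theorem W_step (m n : ℕ) (x : ℤ) :
    W m (n + 1) x - W m (n + 1) (x - 1) = W m n x - W m n (x - m) := by
  rw [W_succ, W_succ]
  have h : ∀ k : ℕ, ∑ t ∈ range k, W m n (x - t) - ∑ t ∈ range k, W m n (x - 1 - t) =
      W m n x - W m n (x - k) := by
    intro k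
    induction k with
    | zero => simp
    | succ k ih =>
      rw [sum_range_succ, sum_range_succ]
      have e : x - 1 - (k : ℤ) = x - ((k + 1 : ℕ) : ℤ) := by push_cast; ring
      rw [e]
      linarith
  exact h m

theorem W_symm (m : ℕ) (n : ℕ) (x : ℤ) : W m n (n * (m - 1) - x) = W m n x := by
  induction n generalizing x with
  | zero =>
    simp only [W_zero]
    by_cases h : x = 0
    · rw [if_pos (by push_cast; omega), if_pos h]
    · rw [if_neg (by push_cast; omega), if_neg h]
  | succ n ih =>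
    rw [W_succ, W_succ, ← sum_range_reflect]
    refine sum_congr rfl fun t ht => ?_
    have h1 : t < m := mem_range.mp ht
    rw [← ih]
    congr 1
    have : ((m - 1 - t : ℕ) : ℤ) = m - 1 - t := by omega
    rw [this]
    push_cast
    ring

/-- Log-concavity, adjacent form. -/
def LC (a : ℤ → ℤ) : Prop := ∀ p q : ℤ, p ≤ q → a p * a (q + 1) ≤ a (p + 1) * a q

/-- Log-concavity. -/
def LCs (a : ℤ → ℤ) : Prop :=
  ∀ (s : ℕ) (p q : ℤ), (s : ℤ) ≤ q - p → a p * a q ≤ a (p + s) * a (q - s)

theorem LC.half {a : ℤ → ℤ} (h : LC a) (s : ℕ) :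
    ∀ (p q : ℤ), 2 * (s : ℤ) ≤ q - p + 1 → a p * a q ≤ a (p + s) * a (q - s) := by
  induction s with
  | zero => intro p q _; simp
  | succ s ih =>
    intro p q hs
    push_cast at hs
    refine (ih p q (by omega)).trans ?_
    have := h (p + s) (q - s - 1) (by omega)
    rw [show q - (s : ℤ) - 1 + 1 = q - s by ring] at this
    refine this.trans (le_of_eq ?_)
    push_cast
    rw [show p + (s : ℤ) + 1 = p + (s + 1) by ring, show q - (s : ℤ) - 1 = q - (s + 1) by ring]

theorem LC.lcs {a : ℤ → ℤ} (h : LC a) : LCs a := by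
  intro s p q hs
  by_cases h2 : 2 * (s : ℤ) ≤ q - p + 1
  · exact h.half s p q h2
  · obtain ⟨s', hs'⟩ := Int.eq_ofNat_of_zero_le (show 0 ≤ q - p - s by omega)
    have := h.half s' p q (by omega)
    refine this.trans (le_of_eq ?_)
    rw [mul_comm]
    congr 2 <;> omega

theorem W_lcs (m n : ℕ) : LCs (W m n) := by
  induction n with
  | zero =>
    apply LC.lcs
    intro p q hpq
    have h0 : W m 0 p * W m 0 (q + 1) = 0 := by
      simp only [W_zero]
      by_cases h : p = 0
      · rw [if_neg (show ¬ q + 1 = 0 by omega), mul_zero]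
      · rw [if_neg h, zero_mul]
    rw [h0]
    exact mul_nonneg (W_nonneg _ _ _) (W_nonneg _ _ _)
  | succ n ih =>
    apply LC.lcs
    intro p q hpq
    have e1 := W_step m n (p + 1)
    have e2 := W_step m n (q + 1)
    rw [show p + 1 - 1 = p by ring] at e1
    rw [show q + 1 - 1 = q by ring] at e2
    have h1 : W m n (q + 1) * W m (n + 1) p ≤ W m n (p + 1) * W m (n + 1) q := by
      rw [W_succ, W_succ, mul_sum, mul_sum]
      refine sum_le_sum fun t _ => ?_
      have := ih (t + 1) (p - t) (q + 1) (by push_cast; omega)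
      rw [mul_comm]
      refine this.trans (le_of_eq ?_)
      push_cast
      rw [show p - (t : ℤ) + (t + 1) = p + 1 by ring, show q + 1 - ((t : ℤ) + 1) = q - t by ring]
    have h2 : W m n (p + 1 - m) * W m (n + 1) q ≤ W m n (q + 1 - m) * W m (n + 1) p := by
      rw [W_succ, W_succ, mul_sum, mul_sum]
      refine sum_le_sum fun t ht => ?_
      have ht' : t < m := mem_range.mp ht
      have := ih (m - 1 - t) (p + 1 - m) (q - t) (by omega)
      refine this.trans (le_of_eq ?_)
      rw [mul_comm]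
      congr 2 <;> omega
    have e1' : W m (n + 1) (p + 1) = W m (n + 1) p + W m n (p + 1) - W m n (p + 1 - m) := by
      linarith
    have e2' : W m (n + 1) (q + 1) = W m (n + 1) q + W m n (q + 1) - W m n (q + 1 - m) := by
      linarith
    rw [e1', e2']
    linarith [h1, h2]

theorem W_sum_shift {N k : ℕ} (f : ℤ → ℝ) (h0 : ∀ x, x < 0 → f x = 0)
    (h1 : ∀ x, (N : ℤ) < x → f x = 0) {t : ℕ} (ht : t ≤ k) :
    ∑ l ∈ Icc (0 : ℤ) (N + k), f (l - t) = ∑ l ∈ Icc (0 : ℤ) N, f l := by
  have e : ∑ l ∈ Icc (0 : ℤ) (N + k), f (l - t) = ∑ l ∈ Icc (0 - (t : ℤ)) (N + k - t), f l := by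
    refine sum_bij (fun l _ => l - t) ?_ ?_ ?_ ?_
    · intro l hl
      rw [mem_Icc] at hl ⊢
      omega
    · intro a _ b _ h
      simpa using h
    · intro b hb
      rw [mem_Icc] at hb
      exact ⟨b + t, by rw [mem_Icc]; omega, by ring⟩
    · intro l _
      rfl
  rw [e]
  symm
  apply sum_subset
  · intro l hl
    rw [mem_Icc] at hl ⊢
    omega
  · intro l hl hl'
    rw [mem_Icc] at hl hl'
    by_cases hneg : l < 0
    · exact h0 l hneg
    · exact h1 l (by omega)

/-- `∑ l, W m n l * r ^ l = (1 + r + ... + r ^ (m - 1)) ^ n`. -/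
theorem W_gen {m : ℕ} (hm : 1 ≤ m) (n : ℕ) {r : ℝ} (hr : r ≠ 0) :
    ∑ l ∈ Icc (0 : ℤ) ((n * (m - 1) : ℕ) : ℤ), (W m n l : ℝ) * r ^ l =
      (∑ t ∈ range m, r ^ t) ^ n := by
  induction n with
  | zero =>
    simp [W_zero]
  | succ n ih =>
    have e : (((n + 1) * (m - 1) : ℕ) : ℤ) = ((n * (m - 1) : ℕ) : ℤ) + ((m - 1 : ℕ) : ℤ) := by
      push_cast; ring
    rw [e]
    have : ∀ l : ℤ, (W m (n + 1) l : ℝ) * r ^ l =
        ∑ t ∈ range m, r ^ t * ((W m n (l - t) : ℝ) * r ^ (l - t)) := by
      intro l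
      rw [W_succ]
      push_cast
      rw [sum_mul]
      refine sum_congr rfl fun t _ => ?_
      rw [zpow_sub₀ hr, zpow_natCast]
      field_simp
    rw [sum_congr rfl fun l _ => this l, sum_comm]
    have h2 : ∀ t ∈ range m, ∑ l ∈ Icc (0 : ℤ) (((n * (m - 1) : ℕ) : ℤ) + ((m - 1 : ℕ) : ℤ)),
        r ^ t * ((W m n (l - t) : ℝ) * r ^ (l - t)) =
        r ^ t * (∑ t ∈ range m, r ^ t) ^ n := by
      intro t ht
      have ht' : t < m := mem_range.mp ht
      rw [← mul_sum, ← ih]
      congr 1
      refine W_sum_shift (fun l => (W m n l : ℝ) * r ^ l) ?_ ?_ (by omega)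
      · intro x hx
        simp [W_neg m n hx]
      · intro x hx
        have : W m n x = 0 := by
          apply W_big
          push_cast [Nat.cast_sub hm] at hx
          exact hx
        simp [this]
    rw [sum_congr rfl h2, ← sum_mul, pow_succ, mul_comm]

/-- The trivial bound for a coefficient. -/
theorem W_le (m n : ℕ) {r : ℝ} (hr : 0 < r) (x : ℤ) :
    (W m n x : ℝ) * r ^ x ≤ (∑ t ∈ range m, r ^ t) ^ n := by
  induction n generalizing x with
  | zero =>
    rw [W_zero]
    split_ifs with h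
    · subst h; simp
    · simp
  | succ n ih =>
    rw [W_succ, pow_succ, mul_comm ((∑ t ∈ range m, r ^ t) ^ n), sum_mul]
    push_cast
    rw [sum_mul]
    refine sum_le_sum fun t _ => ?_
    have := ih (x - t)
    rw [zpow_sub₀ hr.ne', zpow_natCast] at this
    have h2 : 0 < r ^ t := by positivity
    calc (W m n (x - t) : ℝ) * r ^ x = r ^ t * ((W m n (x - t) : ℝ) * (r ^ x / r ^ t)) := by
          field_simp
      _ ≤ r ^ t * (∑ t ∈ range m, r ^ t) ^ n := by
          exact mul_le_mul_of_nonneg_left this h2.le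

theorem W_pos {m : ℕ} (hm : 1 ≤ m) (n : ℕ) {x : ℤ} (h0 : 0 ≤ x) (h1 : x ≤ n * (m - 1)) :
    0 < W m n x := by
  induction n generalizing x with
  | zero =>
    rw [W_zero, if_pos (by push_cast at h1; omega)]; norm_num
  | succ n ih =>
    rw [W_succ]
    push_cast at h1
    by_cases h : x ≤ n * (m - 1)
    · refine sum_pos' (fun t _ => W_nonneg _ _ _) ⟨0, mem_range.mpr hm, ?_⟩
      simpa using ih h0 h
    · obtain ⟨u, hu⟩ := Int.eq_ofNat_of_zero_le (show 0 ≤ x - n * (m - 1) by omega)
      refine sum_pos' (fun t _ => W_nonneg _ _ _) ⟨u, mem_range.mpr ?_, ?_⟩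
      · have : (u : ℤ) ≤ m - 1 := by
          rw [← hu]; nlinarith
        omega
      · have e : x - (u : ℤ) = n * (m - 1) := by
          rw [← hu]; ring
        rw [e]
        apply ih
        · have : (0 : ℤ) ≤ (m : ℤ) - 1 := by omega
          positivity
        · exact le_rfl

/-- First moment. -/
theorem W_moment (m n : ℕ) (x : ℤ) :
    (x : ℤ) * W m (n + 1) x = (n + 1) * ∑ t ∈ range m, (t : ℤ) * W m n (x - t) := by
  induction n generalizing x with
  | zero =>
    rw [W_succ, mul_sum]
    simp only [Nat.cast_zero, zero_add, one_mul]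
    refine sum_congr rfl fun t _ => ?_
    rw [W_zero]
    split_ifs with h
    · have : x = t := by omega
      rw [this]
    · simp
  | succ n ih =>
    have h1 : x * W m (n + 2) x = ∑ t ∈ range m, ((x - t) * W m (n + 1) (x - t) +
        t * W m (n + 1) (x - t)) := by
      rw [W_succ, mul_sum]
      refine sum_congr rfl fun t _ => ?_
      ring
    rw [h1, sum_add_distrib]
    have h2 : ∑ t ∈ range m, (x - (t : ℤ)) * W m (n + 1) (x - t) =
        (n + 1) * ∑ u ∈ range m, (u : ℤ) * W m (n + 1) (x - u) := by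
      rw [sum_congr rfl fun (t : ℕ) _ => ih (x - (t : ℤ)), ← mul_sum, sum_comm]
      congr 1
      refine sum_congr rfl fun u _ => ?_
      rw [W_succ, mul_sum]
      refine sum_congr rfl fun t _ => ?_
      congr 2
      ring
    rw [h2]
    push_cast
    ring

/-- Convolution. -/
theorem W_conv {m : ℕ} (hm : 1 ≤ m) (a b : ℕ) (x : ℤ) :
    W m (a + b) x = ∑ l ∈ Icc (0 : ℤ) ((b * (m - 1) : ℕ) : ℤ), W m b l * W m a (x - l) := by
  induction b generalizing x with
  | zero => simp [W_zero]
  | succ b ih =>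
    have e : (((b + 1) * (m - 1) : ℕ) : ℤ) = ((b * (m - 1) : ℕ) : ℤ) + ((m - 1 : ℕ) : ℤ) := by
      push_cast; ring
    rw [show a + (b + 1) = (a + b) + 1 by ring, W_succ, e]
    have h1 : ∀ l : ℤ, W m (b + 1) l * W m a (x - l) =
        ∑ t ∈ range m, W m b (l - t) * W m a ((x - t) - (l - t)) := by
      intro l
      rw [W_succ, sum_mul]
      refine sum_congr rfl fun t _ => ?_
      congr 2
      ring
    rw [sum_congr rfl fun l _ => h1 l, sum_comm]
    refine sum_congr rfl fun t ht => ?_
    have ht' : t < m := mem_range.mp ht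
    rw [ih]
    have := W_sum_shift (N := b * (m - 1)) (k := m - 1) (t := t)
      (fun l => ((W m b l * W m a ((x - t) - l) : ℤ) : ℝ)) ?_ ?_ (by omega)
    · have h3 : ((∑ l ∈ Icc (0 : ℤ) ((b * (m - 1) : ℕ) + (m - 1 : ℕ)),
          W m b (l - t) * W m a ((x - t) - (l - t)) : ℤ) : ℝ) =
          ((∑ l ∈ Icc (0 : ℤ) ((b * (m - 1) : ℕ)), W m b l * W m a ((x - t) - l) : ℤ) : ℝ) := by
        push_cast at this ⊢
        exact this
      exact_mod_cast h3.symm
    · intro y hy
      simp [W_neg m b hy]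
    · intro y hy
      have : W m b y = 0 := by
        apply W_big
        push_cast [Nat.cast_sub hm] at hy
        exact hy
      simp [this]

end Pool.Agent.W2helper31.HS
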